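import Mathlib
import Pool.Agent.Helper9.NS
import Pool.Agent.Helper26.VC.Chow
import Pool.Agent.Helper83.VF.Defs
import Pool.Agent.Helper51.EW.Defs

/-!
# Surfaces with a fibration by double covers of the line branched at four points

Let `a 0, …, a 4` be binary forms over `k`, the degree of `a i` being `2 N + e (i - 2)` (and
`a i = 0` if this number is negative). The surface is
`w ^ 2 = a 0 (u) x₀ ^ 4 + a 1 (u) x₀ ^ 3 x₁ + a 2 (u) x₀ ^ 2 x₁ ^ 2 + a 3 (u) x₀ x₁ ^ 3 +
a 4 (u) x₁ ^ 4`.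
Its points have homogeneous coordinates `(u 0 : u 1; x 0 : x 1; w)` with `u ≠ 0` and `x ≠ 0`, and
for nonzero `l` and `c` the coordinates `(l u; l ^ e c x₀, c x₁; l ^ (N + e) c ^ 2 w)` describe the
same point as `(u; x₀, x₁; w)`. So it is the double cover of the rational ruled surface
`P (O ⊕ O (e))` over `P¹` with branch curve given by the quartic.
A morphism to it from the smooth projective curve with function field `K` is the same as a point
with coordinates in `K`; its value at a place `v` of `K` is obtained by choosing homogeneous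
coordinates such that all of them are regular at `v` and neither those of `u` nor those of `x` all
vanish at `v`, and evaluating them at `v`.
-/

namespace Pool.Agent.Helper83.QF

open VC VF Function

universe u

/-- The coefficients of a surface fibred in double covers of the line branched at four points. -/
structure Qua (k : Type u) [Field k] where
  /-- the degree of the fundamental line bundle -/
  N : ℕ
  /-- the number of the rational ruled surface -/
  e : ℕ
  /-- the coefficients of the quartic -/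
  a : Fin 5 → MvPolynomial (Fin 2) k
  hom : ∀ i : Fin 5, 2 * e ≤ 2 * N + e * i.val → (a i).IsHomogeneous (2 * N + e * i.val - 2 * e)
  zero : ∀ i : Fin 5, 2 * N + e * i.val < 2 * e → a i = 0

/-- The quartic `c 0 x₀ ^ 4 + c 1 x₀ ^ 3 x₁ + c 2 x₀ ^ 2 x₁ ^ 2 + c 3 x₀ x₁ ^ 3 + c 4 x₁ ^ 4`. -/
def qu {R : Type*} [CommRing R] (c : Fin 5 → R) (x : Fin 2 → R) : R :=
  c 0 * x 0 ^ 4 + c 1 * x 0 ^ 3 * x 1 + c 2 * x 0 ^ 2 * x 1 ^ 2 + c 3 * x 0 * x 1 ^ 3 +
    c 4 * x 1 ^ 4

/-- The values of the coefficients. -/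
noncomputable def cf {k : Type u} [Field k] (Q : Qua k) {K : Type u} [Field K] [Algebra k K]
    (u : Fin 2 → K) : Fin 5 → K := fun i => MvPolynomial.aeval u (Q.a i)

/-- Homogeneous coordinates, in `K`, of a point. -/
structure Coord {k : Type u} [Field k] (Q : Qua k) (K : Type u) [Field K] [Algebra k K] where
  /-- the coordinates of the point of the projective line -/
  u : Fin 2 → K
  /-- the coordinates in the fibre of the ruled surface -/
  x : Fin 2 → K
  /-- the square root of the quartic -/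
  w : K
  u_ne : u ≠ 0
  x_ne : x ≠ 0
  eqn : w ^ 2 = qu (cf Q u) x

/-- Two systems of homogeneous coordinates describe the same point. -/
def Same {k : Type u} [Field k] {Q : Qua k} {K : Type u} [Field K] [Algebra k K]
    (p q : Coord Q K) : Prop :=
  ∃ l c : K, l ≠ 0 ∧ c ≠ 0 ∧ (∀ i, q.u i = l * p.u i) ∧
    q.x 0 = l ^ Q.e * c * p.x 0 ∧ q.x 1 = c * p.x 1 ∧ q.w = l ^ (Q.N + Q.e) * c ^ 2 * p.w

section

variable {k : Type u} [Field k] {Q : Qua k} {K : Type u} [Field K] [Algebra k K]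

lemma Same.refl (p : Coord Q K) : Same p p :=
  ⟨1, 1, one_ne_zero, one_ne_zero, fun i => by rw [one_mul], by simp, by simp, by simp⟩

lemma Same.symm {p q : Coord Q K} (h : Same p q) : Same q p := by
  obtain ⟨l, c, hl, hc, h1, h2, h3, h4⟩ := h
  have := pow_ne_zero Q.e hl
  have := pow_ne_zero (Q.N + Q.e) hl
  refine ⟨l⁻¹, c⁻¹, inv_ne_zero hl, inv_ne_zero hc, fun i => ?_, ?_, ?_, ?_⟩
  · rw [h1, inv_mul_cancel_left₀ hl]
  · rw [h2, inv_pow]
    field_simp
  · rw [h3, inv_mul_cancel_left₀ hc]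
  · rw [h4, inv_pow]
    field_simp

lemma Same.trans {p q r : Coord Q K} (h : Same p q) (h' : Same q r) : Same p r := by
  obtain ⟨l, c, hl, hc, h1, h2, h3, h4⟩ := h
  obtain ⟨l', c', hl', hc', h1', h2', h3', h4'⟩ := h'
  refine ⟨l' * l, c' * c, mul_ne_zero hl' hl, mul_ne_zero hc' hc, fun i => ?_, ?_, ?_, ?_⟩
  · rw [h1', h1]; ring
  · rw [h2', h2]; ring
  · rw [h3', h3]; ring
  · rw [h4', h4]; ring

/-- The equivalence of homogeneous coordinates. -/
instance coordSetoid (Q : Qua k) (K : Type u) [Field K] [Algebra k K] : Setoid (Coord Q K) where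
  r := Same
  iseqv := ⟨Same.refl, Same.symm, Same.trans⟩

/-- The points with coordinates in `K`. -/
def QPt (Q : Qua k) (K : Type u) [Field K] [Algebra k K] : Type u := Quotient (coordSetoid Q K)

/-- The point with given homogeneous coordinates. -/
def QPt.mk (a : Coord Q K) : QPt Q K := Quotient.mk _ a

/-- The point `p` is the value of the point `x` with coordinates in `K` at the place `v` of `K`:
there are homogeneous coordinates `a` of `x` and `b` of `p` such that the coordinates `a` have the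
values `b` at `v`. -/
def IsVal (v : Place k K) (x : QPt Q K) (p : QPt Q k) : Prop :=
  ∃ (a : Coord Q K) (b : Coord Q k), x = QPt.mk a ∧ p = QPt.mk b ∧
    (∀ i, a.u i - algebraMap k K (b.u i) ∈ v.ring.nonunits) ∧
    (∀ i, a.x i - algebraMap k K (b.x i) ∈ v.ring.nonunits) ∧
    a.w - algebraMap k K b.w ∈ v.ring.nonunits

lemma mk_eq_iff {a b : Coord Q K} : QPt.mk a = QPt.mk b ↔ Same a b := Quotient.eq

lemma exists_mk (x : QPt Q K) : ∃ a, x = QPt.mk a := by
  obtain ⟨a, ha⟩ := Quotient.exists_rep x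
  exact ⟨a, ha.symm⟩

/-- The coefficients at `l u`. -/
lemma cf_smul (Q : Qua k) (l : K) (u : Fin 2 → K) (i : Fin 5) :
    l ^ (2 * Q.e) * cf Q (fun s => l * u s) i = l ^ (2 * Q.N + Q.e * i.val) * cf Q u i := by
  unfold cf
  by_cases h : 2 * Q.e ≤ 2 * Q.N + Q.e * i.val
  · rw [Helper51.EW.aeval_smul (Q.hom i h), ← mul_assoc, ← pow_add]
    congr 2
    omega
  · rw [Q.zero i (by omega), map_zero, map_zero, mul_zero, mul_zero]

/-- The quartic at scaled coordinates. -/
lemma qu_scale (Q : Qua k) (l c : K) (hl : l ≠ 0) (u x : Fin 2 → K) :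
    qu (cf Q (fun s => l * u s)) ![l ^ Q.e * c * x 0, c * x 1] =
      (l ^ (Q.N + Q.e) * c ^ 2) ^ 2 * qu (cf Q u) x := by
  have h0 := cf_smul Q l u 0
  have h1 := cf_smul Q l u 1
  have h2 := cf_smul Q l u 2
  have h3 := cf_smul Q l u 3
  have h4 := cf_smul Q l u 4
  have hl2 : l ^ (2 * Q.e) ≠ 0 := pow_ne_zero _ hl
  apply mul_left_cancel₀ hl2
  simp only [qu, Matrix.cons_val_zero, Matrix.cons_val_one]
  simp only [Fin.val_zero, Fin.val_one, mul_zero, add_zero, mul_one] at h0 h1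
  have v2 : ((2 : Fin 5) : ℕ) = 2 := rfl
  have v3 : ((3 : Fin 5) : ℕ) = 3 := rfl
  have v4 : ((4 : Fin 5) : ℕ) = 4 := rfl
  rw [v2] at h2
  rw [v3] at h3
  rw [v4] at h4
  have e0 : l ^ (2 * Q.e) = (l ^ Q.e) ^ 2 := by rw [← pow_mul, mul_comm]
  have e1 : l ^ (2 * Q.N) = (l ^ Q.N) ^ 2 := by rw [← pow_mul, mul_comm]
  have e2 : l ^ (2 * Q.N + Q.e) = (l ^ Q.N) ^ 2 * l ^ Q.e := by rw [pow_add, e1]
  have e3 : l ^ (2 * Q.N + Q.e * 2) = (l ^ Q.N) ^ 2 * (l ^ Q.e) ^ 2 := by rw [pow_add, e1, pow_mul]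
  have e4 : l ^ (2 * Q.N + Q.e * 3) = (l ^ Q.N) ^ 2 * (l ^ Q.e) ^ 3 := by rw [pow_add, e1, pow_mul]
  have e5 : l ^ (2 * Q.N + Q.e * 4) = (l ^ Q.N) ^ 2 * (l ^ Q.e) ^ 4 := by rw [pow_add, e1, pow_mul]
  have e6 : l ^ (Q.N + Q.e) = l ^ Q.N * l ^ Q.e := pow_add _ _ _
  rw [e0, e1] at h0
  rw [e0, e2] at h1
  rw [e0, e3] at h2
  rw [e0, e4] at h3
  rw [e0, e5] at h4
  rw [e0, e6]
  generalize l ^ Q.e = L at *
  generalize l ^ Q.N = P at *
  linear_combination (L * c * x 0) ^ 4 * h0 + (L * c * x 0) ^ 3 * (c * x 1) * h1 +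
    (L * c * x 0) ^ 2 * (c * x 1) ^ 2 * h2 + (L * c * x 0) * (c * x 1) ^ 3 * h3 +
    (c * x 1) ^ 4 * h4

/-- Scaling the coordinates. -/
def scale (a : Coord Q K) (l c : K) (hl : l ≠ 0) (hc : c ≠ 0) : Coord Q K where
  u i := l * a.u i
  x := ![l ^ Q.e * c * a.x 0, c * a.x 1]
  w := l ^ (Q.N + Q.e) * c ^ 2 * a.w
  u_ne := by
    obtain ⟨j, hj⟩ := Function.ne_iff.mp a.u_ne
    intro h
    exact mul_ne_zero hl hj (congrFun h j)
  x_ne := by
    intro h
    apply a.x_ne
    funext i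
    fin_cases i
    · have h0 : l ^ Q.e * c * a.x 0 = 0 := congrFun h 0
      exact (mul_eq_zero.mp h0).resolve_left (mul_ne_zero (pow_ne_zero _ hl) hc)
    · have h0 : c * a.x 1 = 0 := congrFun h 1
      exact (mul_eq_zero.mp h0).resolve_left hc
  eqn := by
    rw [qu_scale Q l c hl, ← a.eqn]
    ring

lemma same_scale (a : Coord Q K) (l c : K) (hl : l ≠ 0) (hc : c ≠ 0) :
    QPt.mk (scale a l c hl hc) = QPt.mk a :=
  (mk_eq_iff.mpr ⟨l, c, hl, hc, fun _ => rfl, rfl, rfl, rfl⟩).symm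

lemma isRes_cf {v : Place k K} {u : Fin 2 → K} {r : Fin 2 → k} (h : ∀ i, IsRes v (u i) (r i))
    (i : Fin 5) : IsRes v (cf Q u i) (cf Q r i) :=
  Helper51.EW.isRes_aeval h _

lemma isRes_qu {v : Place k K} {c : Fin 5 → K} {d : Fin 5 → k} (h : ∀ i, IsRes v (c i) (d i))
    {x : Fin 2 → K} {y : Fin 2 → k} (h' : ∀ i, IsRes v (x i) (y i)) :
    IsRes v (qu c x) (qu d y) :=
  (((((h 0).mul ((h' 0).pow 4)).add (((h 1).mul ((h' 0).pow 3)).mul (h' 1))).add
    (((h 2).mul ((h' 0).pow 2)).mul ((h' 1).pow 2))).add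
    (((h 3).mul (h' 0)).mul ((h' 1).pow 3))).add ((h 4).mul ((h' 1).pow 4))

section value

variable [IsAlgClosed k] [CharZero k] {v : Place k K}

lemma val_unique (hK : IsFunctionField k K) {x : QPt Q K} {p q : QPt Q k}
    (h : IsVal v x p) (h' : IsVal v x q) : p = q := by
  obtain ⟨a, b, rfl, rfl, h1, h2, h3⟩ := h
  obtain ⟨a', b', hx, rfl, h1', h2', h3'⟩ := h'
  obtain ⟨l, c, hl, hc, e1, e2, e3, e4⟩ := mk_eq_iff.mp hx
  replace h1 : ∀ i, IsRes v (a.u i) (b.u i) := h1
  replace h2 : ∀ i, IsRes v (a.x i) (b.x i) := h2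
  replace h3 : IsRes v a.w b.w := h3
  replace h1' : ∀ i, IsRes v (a'.u i) (b'.u i) := h1'
  replace h2' : ∀ i, IsRes v (a'.x i) (b'.x i) := h2'
  replace h3' : IsRes v a'.w b'.w := h3'
  obtain ⟨j, hj⟩ := Function.ne_iff.mp b.u_ne
  obtain ⟨j', hj'⟩ := Function.ne_iff.mp b'.u_ne
  have f1 := (h1 j).inv_mem hj
  have f1' := (h1' j').inv_mem hj'
  have l1 : l ∈ v.ring := by
    have : l = a'.u j * (a.u j)⁻¹ := by
      rw [e1 j, mul_inv_cancel_right₀ f1.1]
    rw [this]
    exact v.ring.mul_mem _ _ (h1' j).mem f1.2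
  have l2 : l⁻¹ ∈ v.ring := by
    have : l⁻¹ = a.u j' * (a'.u j')⁻¹ := by
      have h0 : a.u j' ≠ 0 := by
        intro h0
        apply f1'.1
        rw [e1 j', h0, mul_zero]
      rw [e1 j']
      field_simp
    rw [this]
    exact v.ring.mul_mem _ _ (h1 j').mem f1'.2
  obtain ⟨l0, hl0, hlr⟩ := Helper51.EW.exists_res_ne hK l1 hl l2
  have e5 : ∀ i, a'.x i = l ^ (![Q.e, 0] i) * c * a.x i := by
    intro i
    fin_cases i
    · exact e2
    · change a'.x 1 = l ^ 0 * c * a.x 1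
      rw [e3, pow_zero, one_mul]
  obtain ⟨i, hi⟩ := Function.ne_iff.mp b.x_ne
  obtain ⟨i', hi'⟩ := Function.ne_iff.mp b'.x_ne
  have f2 := (h2 i).inv_mem hi
  have f2' := (h2' i').inv_mem hi'
  have c1 : c ∈ v.ring := by
    have : c = a'.x i * (a.x i)⁻¹ * (l⁻¹) ^ (![Q.e, 0] i) := by
      rw [e5 i, inv_pow]
      have := f2.1
      have := pow_ne_zero (![Q.e, 0] i) hl
      field_simp
    rw [this]
    exact v.ring.mul_mem _ _ (v.ring.mul_mem _ _ (h2' i).mem f2.2) (pow_mem l2 _)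
  have c2 : c⁻¹ ∈ v.ring := by
    have : c⁻¹ = a.x i' * (a'.x i')⁻¹ * l ^ (![Q.e, 0] i') := by
      have h0 : a.x i' ≠ 0 := by
        intro h0
        apply f2'.1
        rw [e5 i', h0, mul_zero]
      rw [e5 i']
      have := pow_ne_zero (![Q.e, 0] i') hl
      field_simp
    rw [this]
    exact v.ring.mul_mem _ _ (v.ring.mul_mem _ _ (h2 i').mem f2'.2) (pow_mem l1 _)
  obtain ⟨c0, hc0, hcr⟩ := Helper51.EW.exists_res_ne hK c1 hc c2
  rw [mk_eq_iff]
  refine ⟨l0, c0, hl0, hc0, fun s => ?_, ?_, ?_, ?_⟩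
  · have := hlr.mul (h1 s)
    rw [← e1 s] at this
    exact (h1' s).unique this
  · have := ((hlr.pow Q.e).mul hcr).mul (h2 0)
    rw [← e2] at this
    exact (h2' 0).unique this
  · have := hcr.mul (h2 1)
    rw [← e3] at this
    exact (h2' 1).unique this
  · have := ((hlr.pow (Q.N + Q.e)).mul (hcr.pow 2)).mul h3
    rw [← e4] at this
    exact h3'.unique this

/-- A morphism from a curve has a value at every point. -/
lemma exists_val (hK : IsFunctionField k K) (x : QPt Q K) (v : Place k K) : ∃ p, IsVal v x p := by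
  obtain ⟨a, rfl⟩ := exists_mk x
  obtain ⟨j, hj, hj'⟩ := exists_max v.ring a.u a.u_ne
  set a1 := scale a (a.u j)⁻¹ 1 (inv_ne_zero hj) one_ne_zero with ha1
  obtain ⟨i, hi, hi'⟩ := exists_max v.ring a1.x a1.x_ne
  set a2 := scale a1 1 (a1.x i)⁻¹ one_ne_zero (inv_ne_zero hi) with ha2
  have h1 : ∀ s, a2.u s ∈ v.ring := by
    intro s
    change 1 * ((a.u j)⁻¹ * a.u s) ∈ _
    rw [one_mul, mul_comm]
    exact hj' s
  have h2 : ∀ s, a2.x s ∈ v.ring := by
    intro s
    have e : a2.x s = a1.x s * (a1.x i)⁻¹ := by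
      fin_cases s
      · change 1 ^ Q.e * (a1.x i)⁻¹ * a1.x 0 = a1.x 0 * (a1.x i)⁻¹
        rw [one_pow]; ring
      · change (a1.x i)⁻¹ * a1.x 1 = a1.x 1 * (a1.x i)⁻¹
        ring
    rw [e]
    exact hi' s
  choose r hr using fun s => exists_res hK (h1 s)
  choose t ht using fun s => exists_res hK (h2 s)
  have hq : IsRes v (qu (cf Q a2.u) a2.x) (qu (cf Q r) t) := isRes_qu (isRes_cf hr) ht
  have h3 : a2.w ∈ v.ring := by
    rw [← a2.eqn] at hq
    by_contra h0
    have h4 := (ValuationSubring.mem_or_inv_mem v.ring a2.w).resolve_left h0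
    apply h0
    have hw0 : a2.w ≠ 0 := by
      intro h5
      rw [h5] at h0
      exact h0 v.ring.zero_mem
    have e : a2.w = a2.w ^ 2 * a2.w⁻¹ := by
      field_simp
    rw [e]
    exact v.ring.mul_mem _ _ hq.mem h4
  obtain ⟨m, hm⟩ := exists_res hK h3
  have hrj : r j = 1 := by
    have e : a2.u j = 1 := by
      change 1 * ((a.u j)⁻¹ * a.u j) = 1
      rw [inv_mul_cancel₀ hj, one_mul]
    have := hr j
    rw [e] at this
    exact this.unique isRes_one
  have hti : t i = 1 := by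
    have e : a2.x i = 1 := by
      have e' : a2.x i = a1.x i * (a1.x i)⁻¹ := by
        fin_cases i
        · change 1 ^ Q.e * (a1.x 0)⁻¹ * a1.x 0 = a1.x 0 * (a1.x 0)⁻¹
          rw [one_pow]; ring
        · change (a1.x 1)⁻¹ * a1.x 1 = a1.x 1 * (a1.x 1)⁻¹
          ring
      rw [e', mul_inv_cancel₀ hi]
    have := ht i
    rw [e] at this
    exact this.unique isRes_one
  refine ⟨QPt.mk ⟨r, t, m, ?_, ?_, ?_⟩, a2, _, ?_, rfl, hr, ht, hm⟩
  · intro h
    rw [h] at hrj
    exact zero_ne_one hrj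
  · intro h
    rw [h] at hti
    exact zero_ne_one hti
  · rw [← a2.eqn] at hq
    exact (hm.pow 2).unique hq
  · rw [ha2, same_scale, ha1, same_scale]

end value

end

/-- The surface with given coefficients. -/
noncomputable abbrev Qua.surface {k : Type u} [Field k] [IsAlgClosed k] [CharZero k] (Q : Qua k) :
    Variety k where
  Pt := QPt Q k
  Mor K _ _ := QPt Q K
  eval hK x v := (exists_val hK x v).choose

section eval

variable {k : Type u} [Field k] [IsAlgClosed k] [CharZero k] {Q : Qua k}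
  {K : Type u} [Field K] [Algebra k K]

lemma eval_spec (hK : IsFunctionField k K) (x : QPt Q K) (v : Place k K) :
    IsVal v x (Q.surface.eval hK x v) := (exists_val hK x v).choose_spec

lemma eval_eq (hK : IsFunctionField k K) (v : Place k K) (a : Coord Q K) (b : Coord Q k)
    (h1 : ∀ i, IsRes v (a.u i) (b.u i)) (h2 : ∀ i, IsRes v (a.x i) (b.x i))
    (h3 : IsRes v a.w b.w) : Q.surface.eval hK (QPt.mk a) v = QPt.mk b :=
  val_unique hK (eval_spec hK _ v) ⟨a, b, rfl, rfl, h1, h2, h3⟩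

/-- Coordinates adapted to a place. -/
lemma exists_coords (hK : IsFunctionField k K) (v : Place k K) (x : QPt Q K) :
    ∃ (a : Coord Q K) (b : Coord Q k), x = QPt.mk a ∧ Q.surface.eval hK x v = QPt.mk b ∧
      (∀ i, IsRes v (a.u i) (b.u i)) ∧ (∀ i, IsRes v (a.x i) (b.x i)) ∧ IsRes v a.w b.w :=
  eval_spec hK x v

/-- The value of a constant morphism. -/
lemma exists_const (K : Type u) [Field K] [Algebra k K] (hK : IsFunctionField k K)
    (p : Q.surface.Pt) : ∃ c : Q.surface.Mor K, ∀ v, Q.surface.eval hK c v = p := by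
  obtain ⟨b, rfl⟩ := exists_mk p
  refine ⟨QPt.mk ⟨fun i => algebraMap k K (b.u i), fun i => algebraMap k K (b.x i),
    algebraMap k K b.w, ?_, ?_, ?_⟩,
    fun v => eval_eq hK v _ b (fun i => isRes_const _) (fun i => isRes_const _) (isRes_const _)⟩
  · obtain ⟨j, hj⟩ := Function.ne_iff.mp b.u_ne
    intro h0
    exact hj ((_root_.map_eq_zero _).mp (congrFun h0 j))
  · obtain ⟨j, hj⟩ := Function.ne_iff.mp b.x_ne
    intro h0
    exact hj ((_root_.map_eq_zero _).mp (congrFun h0 j))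
  · have e : ∀ i, cf Q (fun i => algebraMap k K (b.u i)) i = algebraMap k K (cf Q b.u i) := by
      intro i
      exact MvPolynomial.aeval_algebraMap_apply K b.u (Q.a i)
    have := congrArg (algebraMap k K) b.eqn
    simp only [qu, map_mul, map_pow, map_add] at this
    simp only [qu, e]
    exact this

end eval

/-! ### The involution -/

section points

variable {k : Type u} [Field k] {Q : Qua k} {K : Type u} [Field K] [Algebra k K]

/-- The involution on coordinates. -/
def negC (a : Coord Q K) : Coord Q K where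
  u := a.u
  x := a.x
  w := -a.w
  u_ne := a.u_ne
  x_ne := a.x_ne
  eqn := by rw [neg_sq, a.eqn]

/-- The involution `w ↦ - w`. -/
def neg (p : QPt Q K) : QPt Q K :=
  Quotient.map negC (by
    rintro a b ⟨l, c, hl, hc, h1, h2, h3, h4⟩
    refine ⟨l, c, hl, hc, h1, h2, h3, ?_⟩
    change -b.w = l ^ (Q.N + Q.e) * c ^ 2 * (-a.w)
    rw [h4]; ring) p

lemma neg_mk (a : Coord Q K) : neg (QPt.mk a) = QPt.mk (negC a) := rfl

lemma neg_neg' (p : QPt Q K) : neg (neg p) = p := by
  obtain ⟨a, rfl⟩ := exists_mk p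
  rw [neg_mk, neg_mk, mk_eq_iff]
  refine ⟨1, 1, one_ne_zero, one_ne_zero, fun i => (one_mul _).symm, ?_, ?_, ?_⟩
  · simp [negC]
  · simp [negC]
  · simp [negC]

variable [IsAlgClosed k] [CharZero k]

lemma induced_neg : Induced Q.surface Q.surface neg := by
  intro K _ _ hK c
  refine ⟨neg c, fun v => ?_⟩
  obtain ⟨a, b, rfl, h2, h3, h4, h5⟩ := exists_coords hK v c
  rw [h2, neg_mk, neg_mk]
  exact eval_eq hK v (negC a) (negC b) h3 h4 h5.neg

end points

end Pool.Agent.Helper83.QF
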