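import Mathlib
import Pool.Agent.Helper9.NS
import Pool.Agent.Helper51.EW.Sym
import Pool.Agent.Helper83.VF.Kill
import Pool.Agent.Helper83.QF.Inv

/-!
# Points of the surface: total functions, smooth fibres
-/

set_option linter.unusedSectionVars false

namespace Pool.Agent.Helper83.QF

open VC VF Function
open Pool.Agent.Helper51.EW (Wei WPt)

universe u

section

variable {k : Type u} [Field k] {Q : Qua k} {K : Type u} [Field K] [Algebra k K]

/-- Coordinates in a larger field. -/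
def Coord.map {L : Type u} [Field L] [Algebra k L] (ι : K →ₐ[k] L) (a : Coord Q K) :
    Coord Q L where
  u i := ι (a.u i)
  x i := ι (a.x i)
  w := ι a.w
  u_ne := by
    obtain ⟨j, hj⟩ := Function.ne_iff.mp a.u_ne
    intro h0
    exact hj ((_root_.map_eq_zero _).mp (congrFun h0 j))
  x_ne := by
    obtain ⟨j, hj⟩ := Function.ne_iff.mp a.x_ne
    intro h0
    exact hj ((_root_.map_eq_zero _).mp (congrFun h0 j))
  eqn := by
    have e : ∀ i, cf Q (fun i => ι (a.u i)) i = ι (cf Q a.u i) := by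
      intro i
      exact (MvPolynomial.comp_aeval_apply _ ι (Q.a i)).symm
    have := congrArg ι a.eqn
    simp only [qu, map_mul, map_pow, map_add] at this
    simp only [qu, e]
    exact this

instance [IsAlgClosed k] : Nonempty (QPt Q K) := by
  obtain ⟨w, hw⟩ := IsAlgClosed.exists_pow_nat_eq (qu (cf Q ![(1 : k), 0]) ![1, 0]) (n := 2)
    (by norm_num)
  exact ⟨QPt.mk (Coord.map (Algebra.ofId k K) ⟨![1, 0], ![1, 0], w,
    fun h => one_ne_zero (congrFun h 0), fun h => one_ne_zero (congrFun h 0), hw⟩)⟩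

open Classical in
/-- The point `(u; x; w)`, if these are coordinates of a point. -/
noncomputable def qpt [IsAlgClosed k] (Q : Qua k) {K : Type u} [Field K] [Algebra k K]
    (u x : Fin 2 → K) (w : K) : QPt Q K :=
  if h : u ≠ 0 ∧ x ≠ 0 ∧ w ^ 2 = qu (cf Q u) x then QPt.mk ⟨u, x, w, h.1, h.2.1, h.2.2⟩ else
    Classical.arbitrary _

lemma qpt_eq [IsAlgClosed k] {u x : Fin 2 → K} {w : K} (hu : u ≠ 0) (hx : x ≠ 0)
    (h : w ^ 2 = qu (cf Q u) x) : qpt Q u x w = QPt.mk ⟨u, x, w, hu, hx, h⟩ :=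
  dif_pos ⟨hu, hx, h⟩

lemma exists_qpt [IsAlgClosed k] (p : QPt Q K) : ∃ (u x : Fin 2 → K) (w : K), u ≠ 0 ∧ x ≠ 0 ∧
    w ^ 2 = qu (cf Q u) x ∧ p = qpt Q u x w := by
  obtain ⟨a, rfl⟩ := exists_mk p
  exact ⟨a.u, a.x, a.w, a.u_ne, a.x_ne, a.eqn, (qpt_eq a.u_ne a.x_ne a.eqn).symm⟩

lemma neg_qpt [IsAlgClosed k] {u x : Fin 2 → K} {w : K} (hu : u ≠ 0) (hx : x ≠ 0)
    (h : w ^ 2 = qu (cf Q u) x) : neg (qpt Q u x w) = qpt Q u x (-w) := by
  rw [qpt_eq hu hx h, qpt_eq hu hx (by rw [neg_sq]; exact h)]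
  rfl

lemma qu_smul (c : Fin 5 → K) (l : K) (x : Fin 2 → K) :
    qu c (fun i => l * x i) = l ^ 4 * qu c x := by
  simp only [qu]
  ring

/-- Scaling of the coordinates in the fibre. -/
lemma qpt_smul [IsAlgClosed k] {u x : Fin 2 → K} {w l : K} (hu : u ≠ 0) (hx : x ≠ 0) (hl : l ≠ 0)
    (h : w ^ 2 = qu (cf Q u) x) : qpt Q u (fun i => l * x i) (l ^ 2 * w) = qpt Q u x w := by
  have hx' : (fun i => l * x i) ≠ 0 := by
    obtain ⟨j, hj⟩ := Function.ne_iff.mp hx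
    intro h0
    exact mul_ne_zero hl hj (congrFun h0 j)
  rw [qpt_eq hu hx h, qpt_eq hu hx' (by rw [qu_smul, ← h]; ring)]
  symm
  rw [mk_eq_iff]
  exact ⟨1, l, one_ne_zero, hl, fun i => (one_mul _).symm, by simp, by simp, by simp⟩

/-- The value of a point with regular coordinates. -/
lemma eval_qpt [IsAlgClosed k] [CharZero k] (hK : IsFunctionField k K) (v : Place k K)
    {u x : Fin 2 → K} {w : K} (h : w ^ 2 = qu (cf Q u) x) {r y : Fin 2 → k} {m : k} (hr : r ≠ 0)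
    (hy : y ≠ 0) (h1 : ∀ i, IsRes v (u i) (r i)) (h2 : ∀ i, IsRes v (x i) (y i))
    (h3 : IsRes v w m) : Q.surface.eval hK (qpt Q u x w) v = qpt Q r y m := by
  have hu : u ≠ 0 := by
    obtain ⟨j, hj⟩ := Function.ne_iff.mp hr
    intro h0
    have := h1 j
    rw [h0] at this
    exact hj (this.unique isRes_zero)
  have hx : x ≠ 0 := by
    obtain ⟨j, hj⟩ := Function.ne_iff.mp hy
    intro h0
    have := h2 j
    rw [h0] at this
    exact hj (this.unique isRes_zero)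
  have h' : m ^ 2 = qu (cf Q r) y := by
    have e2 : IsRes v (qu (cf Q u) x) (qu (cf Q r) y) := isRes_qu (isRes_cf h1) h2
    rw [← h] at e2
    exact (h3.pow 2).unique e2
  rw [qpt_eq hu hx h, qpt_eq hr hy h']
  exact eval_eq hK v _ _ h1 h2 h3

/-- The discriminant at scaled coordinates. -/
lemma dsc_scale (Q : Qua k) (l : K) (_hl : l ≠ 0) (u : Fin 2 → K) :
    dsc (cf Q (fun s => l * u s)) = l ^ (12 * Q.N) * dsc (cf Q u) := by
  have h1 : ∀ z : Fin 2 → K, -27 * bI (cf Q z) = MvPolynomial.aeval z Q.wei.A :=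
    fun z => (aeval_A Q z).symm
  have h2 : ∀ z : Fin 2 → K, -27 * bJ (cf Q z) = MvPolynomial.aeval z Q.wei.B :=
    fun z => (aeval_B Q z).symm
  have h3 := Helper51.EW.aeval_smul Q.wei.hA l u
  have h4 := Helper51.EW.aeval_smul Q.wei.hB l u
  rw [← h1, ← h1] at h3
  rw [← h2, ← h2] at h4
  have hN : Q.wei.N = Q.N := rfl
  rw [hN] at h3 h4
  by_cases h27 : (27 : K) = 0
  · -- impossible in characteristic zero, but true anyway
    have h30 : (3 : K) = 0 := by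
      have : (3 : K) ^ 3 = 0 := by linear_combination h27
      exact (pow_eq_zero_iff (by norm_num)).mp this
    have e1 : ∀ c : Fin 5 → K, bI c = c 2 ^ 2 := by
      intro c
      simp only [bI]
      linear_combination (4 * c 0 * c 4 - c 1 * c 3) * h30
    have e2 : ∀ c : Fin 5 → K, bJ c = -2 * c 2 ^ 3 := by
      intro c
      simp only [bJ]
      linear_combination (24 * c 0 * c 2 * c 4 + 3 * c 1 * c 2 * c 3 - 9 * c 0 * c 3 ^ 2 -
        9 * c 4 * c 1 ^ 2) * h30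
    rw [dsc, dsc, e1, e2, e1, e2]
    ring
  · have h5 : bI (cf Q (fun s => l * u s)) = l ^ (4 * Q.N) * bI (cf Q u) := by
      apply mul_left_cancel₀ (neg_ne_zero.mpr h27)
      rw [h3]; ring
    have h6 : bJ (cf Q (fun s => l * u s)) = l ^ (6 * Q.N) * bJ (cf Q u) := by
      apply mul_left_cancel₀ (neg_ne_zero.mpr h27)
      rw [h4]; ring
    have e1 : l ^ (12 * Q.N) = (l ^ (4 * Q.N)) ^ 3 := by rw [← pow_mul]; congr 1; omega
    have e2 : l ^ (12 * Q.N) = (l ^ (6 * Q.N)) ^ 2 := by rw [← pow_mul]; congr 1; omega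
    rw [dsc, dsc, h5, h6]
    have e3 := e1.symm.trans e2
    rw [e2]
    linear_combination 4 * bI (cf Q u) ^ 3 * e3

/-- The point lies on a smooth fibre. -/
def DQ (P : QPt Q K) : Prop := ∃ a : Coord Q K, P = QPt.mk a ∧ dsc (cf Q a.u) ≠ 0

/-- The point of the Jacobian fibration lies on a smooth fibre. -/
def DW (j : WPt Q.wei K) : Prop :=
  ∃ b : Helper51.EW.Coord Q.wei K, j = WPt.mk b ∧ dsc (cf Q b.u) ≠ 0

lemma dq_mk (a : Coord Q K) : DQ (QPt.mk a) ↔ dsc (cf Q a.u) ≠ 0 := by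
  constructor
  · rintro ⟨b, hb, h⟩ h0
    obtain ⟨l, c, hl, hc, h1, _⟩ := mk_eq_iff.mp hb
    apply h
    have e : b.u = fun s => l * a.u s := funext h1
    rw [e, dsc_scale Q l hl, h0, mul_zero]
  · intro h
    exact ⟨a, rfl, h⟩

lemma dw_mk (b : Helper51.EW.Coord Q.wei K) : DW (WPt.mk b) ↔ dsc (cf Q b.u) ≠ 0 := by
  constructor
  · rintro ⟨b', hb, h⟩ h0
    obtain ⟨l, c, hl, hc, h1, _⟩ := Helper51.EW.mk_eq_iff.mp hb
    apply h
    have e : b'.u = fun s => l * b.u s := funext h1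
    rw [e, dsc_scale Q l hl, h0, mul_zero]
  · intro h
    exact ⟨b, rfl, h⟩

lemma dw_of_over {P : QPt Q K} {j : WPt Q.wei K} (h : Over P j) : DW j ↔ DQ P := by
  obtain ⟨a, ha, rfl, rfl⟩ := h
  rw [dw_mk, dq_mk]
  rfl

/-- The image does not depend on the coordinates. -/
lemma tw_scale (a : Coord Q K) (l c : K) (hl : l ≠ 0) (hc : c ≠ 0) (i : Fin 3) :
    tw (scale a l c hl hc) i =
      l ^ Helper51.EW.wt Q.N i * (l ^ (3 * Q.N + 3 * Q.e) * c ^ 6) * tw a i := by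
  have h4 := g4_scale Q l c hl a.u a.x
  have h6 := g6_scale Q l c hl a.u a.x
  have e1 : l ^ (4 * Q.N + 2 * Q.e) = (l ^ Q.N) ^ 4 * (l ^ Q.e) ^ 2 := by
    rw [pow_add, mul_comm 4, mul_comm 2, pow_mul, pow_mul]
  have e2 : l ^ (6 * Q.N + 3 * Q.e) = (l ^ Q.N) ^ 6 * (l ^ Q.e) ^ 3 := by
    rw [pow_add, mul_comm 6, mul_comm 3, pow_mul, pow_mul]
  have e3 : l ^ (3 * Q.N + 3 * Q.e) = (l ^ Q.N) ^ 3 * (l ^ Q.e) ^ 3 := by
    rw [pow_add, mul_comm 3 Q.N, mul_comm 3 Q.e, pow_mul, pow_mul]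
  have e4 : l ^ (Q.N + Q.e) = l ^ Q.N * l ^ Q.e := pow_add _ _ _
  have e5 : l ^ (2 * Q.N) = (l ^ Q.N) ^ 2 := by rw [← pow_mul, mul_comm]
  have e6 : l ^ (3 * Q.N) = (l ^ Q.N) ^ 3 := by rw [← pow_mul, mul_comm]
  fin_cases i
  · change 6 * g4 (cf Q (fun s => l * a.u s)) ![l ^ Q.e * c * a.x 0, c * a.x 1] *
      (l ^ (Q.N + Q.e) * c ^ 2 * a.w) = l ^ (2 * Q.N) * (l ^ (3 * Q.N + 3 * Q.e) * c ^ 6) *
      (6 * g4 (cf Q a.u) a.x * a.w)
    rw [h4, e1, e3, e4, e5]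
    ring
  · change 27 * g6 (cf Q (fun s => l * a.u s)) ![l ^ Q.e * c * a.x 0, c * a.x 1] =
      l ^ (3 * Q.N) * (l ^ (3 * Q.N + 3 * Q.e) * c ^ 6) * (27 * g6 (cf Q a.u) a.x)
    rw [h6, e2, e3, e6]
    ring
  · change 8 * (l ^ (Q.N + Q.e) * c ^ 2 * a.w) ^ 3 =
      l ^ 0 * (l ^ (3 * Q.N + 3 * Q.e) * c ^ 6) * (8 * a.w ^ 3)
    rw [e3, e4, pow_zero]
    ring

lemma same_eq {a b : Coord Q K} (h : Same a b) :
    ∃ (l c : K) (hl : l ≠ 0) (hc : c ≠ 0), b = scale a l c hl hc := by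
  obtain ⟨l, c, hl, hc, h1, h2, h3, h4⟩ := h
  refine ⟨l, c, hl, hc, ?_⟩
  obtain ⟨bu, bx, bw, _, _, _⟩ := b
  obtain ⟨au, ax, aw, _, _, _⟩ := a
  have e1 : bu = fun i => l * au i := funext h1
  have e2 : bx = ![l ^ Q.e * c * ax 0, c * ax 1] := by
    funext i
    fin_cases i
    · exact h2
    · exact h3
  have e3 : bw = l ^ (Q.N + Q.e) * c ^ 2 * aw := h4
  subst e1
  subst e2
  subst e3
  rfl

lemma over_mk {a : Coord Q K} {j : WPt Q.wei K} :
    Over (QPt.mk a) j ↔ ∃ h : tw a ≠ 0, j = WPt.mk (toC a h) := by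
  constructor
  · rintro ⟨b, h, h1, rfl⟩
    obtain ⟨l, c, hl, hc, rfl⟩ := same_eq (mk_eq_iff.mp h1)
    have h2 : tw a ≠ 0 := by
      intro h0
      apply h
      funext i
      rw [tw_scale, h0]
      simp
    refine ⟨h2, ?_⟩
    symm
    rw [Helper51.EW.mk_eq_iff]
    refine ⟨l, l ^ (3 * Q.N + 3 * Q.e) * c ^ 6, hl,
      mul_ne_zero (pow_ne_zero _ hl) (pow_ne_zero _ hc), fun i => rfl, fun i => ?_⟩
    exact tw_scale a l c hl hc i
  · rintro ⟨h, rfl⟩
    exact ⟨a, h, rfl, rfl⟩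

lemma over_neg {P : QPt Q K} {j : WPt Q.wei K} (h : Over P j) :
    Over (neg P) (Helper51.EW.neg j) := by
  obtain ⟨a, ha, rfl, rfl⟩ := h
  have e : ∀ i, tw (negC a) i = ![-tw a 0, tw a 1, -tw a 2] i := by
    intro i
    fin_cases i
    · change 6 * g4 (cf Q a.u) a.x * (-a.w) = -(6 * g4 (cf Q a.u) a.x * a.w)
      ring
    · rfl
    · change 8 * (-a.w) ^ 3 = -(8 * a.w ^ 3)
      ring
  have h2 : tw (negC a) ≠ 0 := by
    intro h0
    apply ha
    funext i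
    have := e i
    rw [h0] at this
    fin_cases i
    · have h3 : (0 : K) = -tw a 0 := this
      exact neg_eq_zero.mp h3.symm
    · exact this.symm
    · have h3 : (0 : K) = -tw a 2 := this
      exact neg_eq_zero.mp h3.symm
  rw [neg_mk, over_mk]
  refine ⟨h2, ?_⟩
  rw [Helper51.EW.neg_mk, Helper51.EW.mk_eq_iff]
  refine ⟨1, -1, one_ne_zero, neg_ne_zero.mpr one_ne_zero, fun i => (one_mul _).symm, fun i => ?_⟩
  rw [one_pow, one_mul]
  change tw (negC a) i = -1 * ![tw a 0, -tw a 1, tw a 2] i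
  rw [e]
  fin_cases i
  · change -tw a 0 = -1 * tw a 0
    ring
  · change tw a 1 = -1 * -tw a 1
    ring
  · change -tw a 2 = -1 * tw a 2
    ring

end

end Pool.Agent.Helper83.QF
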