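import Mathlib
import Pool.Agent.Helper9.NS
import Pool.Agent.Helper94.VQ.MoveLift
import Pool.Agent.Helper83.QF.Pt

/-!
# Block BC: Weierstrass points in a larger field and their values
Proof. Choose adapted coordinates `a` of `j` at the place `res v'` (`EW.exists_coords`); their images
in `K'` are coordinates of `wmap j` and have the same residues: `algebraMap K K' x ∈ v'.ring` iff
`x ∈ (res v').ring` (definition of `Place.comap`), and the same for `nonunits`; then `EW.eval_eq`.
-/

set_option linter.unusedSectionVars false

namespace Pool.Agent.Helper83.QF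

open VC VF Function
open Pool.Agent.Helper51.EW (Wei WPt)

universe u

section

variable {k : Type u} [Field k] {W : Wei k} {K : Type u} [Field K] [Algebra k K]

/-- Coordinates in a larger field. -/
def cmap {L : Type u} [Field L] [Algebra k L] (ι : K →ₐ[k] L) (a : Helper51.EW.Coord W K) :
    Helper51.EW.Coord W L where
  u i := ι (a.u i)
  w i := ι (a.w i)
  u_ne := by
    obtain ⟨j, hj⟩ := Function.ne_iff.mp a.u_ne
    intro h0
    exact hj ((_root_.map_eq_zero _).mp (congrFun h0 j))
  w_ne := by
    obtain ⟨j, hj⟩ := Function.ne_iff.mp a.w_ne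
    intro h0
    exact hj ((_root_.map_eq_zero _).mp (congrFun h0 j))
  eqn := by
    have e : ∀ F : MvPolynomial (Fin 2) k, MvPolynomial.aeval (fun i => ι (a.u i)) F =
        ι (MvPolynomial.aeval a.u F) := fun F => (MvPolynomial.comp_aeval_apply _ ι F).symm
    rw [e, e]
    have := congrArg ι a.eqn
    simpa only [map_mul, map_pow, map_add] using this

/-- A point with coordinates in a larger field. -/
def wmap {L : Type u} [Field L] [Algebra k L] (ι : K →ₐ[k] L) (p : WPt W K) : WPt W L :=
  Quotient.map (cmap ι) (by
    rintro a b ⟨l, c, hl, hc, h1, h2⟩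
    refine ⟨ι l, ι c, fun h => hl ((_root_.map_eq_zero _).mp h),
      fun h => hc ((_root_.map_eq_zero _).mp h), fun i => ?_, fun i => ?_⟩
    · change ι (b.u i) = ι l * ι (a.u i)
      rw [h1, map_mul]
    · change ι (b.w i) = ι l ^ _ * ι c * ι (a.w i)
      rw [h2, map_mul, map_mul, map_pow]) p

lemma wmap_mk {L : Type u} [Field L] [Algebra k L] (ι : K →ₐ[k] L)
    (a : Helper51.EW.Coord W K) : wmap ι (WPt.mk a) = WPt.mk (cmap ι a) := rfl

variable [IsAlgClosed k] [CharZero k]

theorem wmap_eval {L : Type u} [Field L] [Algebra k L] [Algebra K L] [IsScalarTower k K L]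
    (hK : IsFunctionField k K) (hL : IsFunctionField k L) (j : WPt W K) (v : Place k L) :
    W.surface.eval hL (wmap (IsScalarTower.toAlgHom k K L) j) v =
      W.surface.eval hK j (VQ.res hK hL v) := by
  obtain ⟨a, b, rfl, h2, h3, h4⟩ := Helper51.EW.exists_coords hK (VQ.res hK hL v) j
  rw [h2, wmap_mk]
  have key : ∀ (z : K) (c : k), IsRes (VQ.res hK hL v) z c →
      IsRes v (IsScalarTower.toAlgHom k K L z) c := by
    intro z c h
    have h5 : z - algebraMap k K c ∈ (VQ.res hK hL v).ring.nonunits := h
    change z - algebraMap k K c ∈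
      (v.ring.comap (IsScalarTower.toAlgHom k K L).toRingHom).nonunits at h5
    rw [mem_nonunits_comap] at h5
    have h6 : (IsScalarTower.toAlgHom k K L).toRingHom (z - algebraMap k K c) =
        IsScalarTower.toAlgHom k K L z - algebraMap k L c := by
      change IsScalarTower.toAlgHom k K L (z - algebraMap k K c) = _
      rw [map_sub, AlgHom.commutes]
    rw [h6] at h5
    exact h5
  exact Helper51.EW.eval_eq hL v (cmap _ a) b (fun i => key _ _ (h3 i)) (fun i => key _ _ (h4 i))

end

end Pool.Agent.Helper83.QF
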