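import Mathlib
import Pool.Agent.Helper9.NS
import Pool.Agent.Helper83.KV.FF
import Pool.Agent.Helper83.QF.Pt
import Pool.Agent.Helper83.VF.Kill

/-!
# Block EVN: even functions are constant
Proof (as in `Helper94/EW/Even.lean`). For `r, y` in `k ^ 2` nonzero let `ev r y = ψ (qpt Q r y m)`,
`m ^ 2 = qu (cf Q r) y` (both square roots have the same value since `ψ` is even). Let `r₁ ≠ r₀`
and `y₁, y₀` be nonzero vectors such that `r(θ) = r₀ + θ (r₁ - r₀)` and `y(θ) = y₀ + θ (y₁ - y₀)`
are nonzero for all `θ` (true if `r₀, r₁` are independent or equal, and `y₀, y₁` also). Over a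
function field `K ∋ θ, w`, `w ^ 2 = qu (cf Q (r θ)) (y θ)` (`KV.exists_ff`), `path` for the K-point
`qpt Q r(θ) y(θ) w` and `τ = θ`: the value at `θ = a` is `ev (r a) (y a)`. So `ev r₀ y₀ = ev r₁ y₁`.
Any two pairs of nonzero vectors are joined by at most two such steps (up to scaling of `r` and
`y`: `mk_eq_iff`, `scale`; with `(r, y)` scaled the value `ev` does not change): choose a third
vector independent of both.
-/

set_option linter.unusedSectionVars false

namespace Pool.Agent.Helper83.QF

open VC VF Function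

universe u

section line

open Polynomial

variable {k : Type u} [Field k]

/-- A binary form along a line, as a polynomial. -/
noncomputable def alongP6 (F : MvPolynomial (Fin 2) k) (r r' : Fin 2 → k) : k[X] :=
  MvPolynomial.aeval (fun i => C (r i) + X * C (r' i - r i)) F

lemma aeval_alongP6 {K : Type u} [Field K] [Algebra k K] (τ : K) (F : MvPolynomial (Fin 2) k)
    (r r' : Fin 2 → k) : aeval τ (alongP6 F r r') =
      MvPolynomial.aeval (fun i => algebraMap k K (r i) + τ * algebraMap k K (r' i - r i)) F := by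
  unfold alongP6
  have h2 : (Polynomial.aeval τ) ((MvPolynomial.aeval
      (fun i : Fin 2 => (C (r i) + X * C (r' i - r i) : k[X]))) F) =
      ((Polynomial.aeval τ : k[X] →ₐ[k] K).comp (MvPolynomial.aeval
      (fun i : Fin 2 => (C (r i) + X * C (r' i - r i) : k[X])))) F := rfl
  rw [h2, MvPolynomial.comp_aeval]
  congr 2
  funext i
  simp only [map_add, map_mul, aeval_C, aeval_X]

/-- The line through `y` and `y'`. -/
noncomputable def lineP6 (y y' : Fin 2 → k) (j : Fin 2) : k[X] := C (y j) + X * C (y' j - y j)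

lemma aeval_lineP6 {K : Type u} [Field K] [Algebra k K] (τ : K) (y y' : Fin 2 → k) (j : Fin 2) :
    aeval τ (lineP6 y y' j) = algebraMap k K (y j) + τ * algebraMap k K (y' j - y j) := by
  simp only [lineP6, map_add, map_mul, aeval_C, aeval_X]

/-- The quartic along a line. -/
noncomputable def quP6 (Q : Qua k) (r r' y y' : Fin 2 → k) : k[X] :=
  qu (fun i => alongP6 (Q.a i) r r') (lineP6 y y')

lemma aeval_quP6 {K : Type u} [Field K] [Algebra k K] (τ : K) (Q : Qua k)
    (r r' y y' : Fin 2 → k) : aeval τ (quP6 Q r r' y y') =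
      qu (cf Q (fun i => algebraMap k K (r i) + τ * algebraMap k K (r' i - r i)))
        (fun j => algebraMap k K (y j) + τ * algebraMap k K (y' j - y j)) := by
  unfold quP6 qu cf
  simp only [map_add, map_mul, map_pow, aeval_alongP6, aeval_lineP6]

lemma eval_quP6 (Q : Qua k) (r r' y y' : Fin 2 → k) (t : k) :
    (quP6 Q r r' y y').eval t =
      qu (cf Q (fun i => r i + t * (r' i - r i))) (fun j => y j + t * (y' j - y j)) := by
  have := aeval_quP6 (K := k) t Q r r' y y'
  simpa [Polynomial.aeval_def, Polynomial.eval₂_eq_eval_map] using this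

end line

variable {k : Type u} [Field k] [IsAlgClosed k] [CharZero k] {Q : Qua k}

/-- Even functions agree at any two points. -/
lemma even_aff6 {ψ : Q.surface.Pt → k} (h : Kills Q.surface ψ)
    (he : ∀ p, ψ (neg p) = ψ p) {r r' y y' : Fin 2 → k} (hr : r ≠ 0) (hr' : r' ≠ 0) (hy : y ≠ 0)
    (hy' : y' ≠ 0) {m m' : k} (h1 : m ^ 2 = qu (cf Q r) y) (h1' : m' ^ 2 = qu (cf Q r') y') :
    ψ (qpt Q r y m) = ψ (qpt Q r' y' m') := by
  obtain ⟨K, _, _, τ, W, hK, hτ, hW⟩ := exists_poly_roots (k := k) two_ne_zero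
    (fun _ : Fin 1 => quP6 Q r r' y y')
  have hw0 := hW 0
  set w := W 0 with hw
  set u : Fin 2 → K := fun i => algebraMap k K (r i) + τ * algebraMap k K (r' i - r i) with hu
  set x : Fin 2 → K := fun j => algebraMap k K (y j) + τ * algebraMap k K (y' j - y j) with hx
  have hKw : w ^ 2 = qu (cf Q u) x := by rw [hw0, aeval_quP6]
  have key : ∀ (t : k) (s z : Fin 2 → k) (f : k), s ≠ 0 → z ≠ 0 →
      (∀ i, s i = r i + t * (r' i - r i)) → (∀ j, z j = y j + t * (y' j - y j)) →
      f ^ 2 = qu (cf Q s) z →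
      ∀ v : Place k K, IsRes v τ t → ψ (Q.surface.eval hK (qpt Q u x w) v) =
        ψ (qpt Q s z f) := by
    intro t s z f hs hz hst hzt hf v hv
    have hSe : (quP6 Q r r' y y').eval t = f ^ 2 := by
      rw [eval_quP6, hf]
      have e1 : (fun i => r i + t * (r' i - r i)) = s := by
        funext i; rw [hst i]
      have e2 : (fun j => y j + t * (y' j - y j)) = z := by
        funext j; rw [hzt j]
      rw [e1, e2]
    obtain ⟨g, hg, hg2⟩ := exists_res_of_pow hK two_ne_zero (x := w) (v := v)
      (c := (quP6 Q r r' y y').eval t) (by rw [hw0]; exact hv.poly)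
    have hue : ∀ i, IsRes v (u i) (s i) := by
      intro i
      rw [hst i]
      exact (isRes_const _).add (hv.mul (isRes_const _))
    have hxe : ∀ j, IsRes v (x j) (z j) := by
      intro j
      rw [hzt j]
      exact (isRes_const _).add (hv.mul (isRes_const _))
    rw [eval_qpt hK v hKw hs hz hue hxe hg]
    rw [hSe] at hg2
    rcases sq_eq_sq_iff_eq_or_eq_neg.mp hg2 with h2 | h2
    · rw [h2]
    · rw [h2, ← neg_qpt hs hz hf, he]
  have e0 : ∀ (a a' : Fin 2 → k) (i : Fin 2), a i = a i + 0 * (a' i - a i) := fun a a' i => by ring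
  have e1 : ∀ (a a' : Fin 2 → k) (i : Fin 2), a' i = a i + 1 * (a' i - a i) := fun a a' i => by ring
  exact path h hK _ hτ zero_ne_one
    (key 0 r y m hr hy (e0 r r') (e0 y y') h1)
    (key 1 r' y' m' hr' hy' (e1 r r') (e1 y y') h1')

theorem even_const {ψ : Q.surface.Pt → k} (h : Kills Q.surface ψ)
    (he : ∀ p, ψ (neg p) = ψ p) (p q : Q.surface.Pt) : ψ p = ψ q := by
  obtain ⟨r, y, m, hr, hy, h1, rfl⟩ := exists_qpt p
  obtain ⟨r', y', m', hr', hy', h1', rfl⟩ := exists_qpt q
  exact even_aff6 h he hr hr' hy hy' h1 h1'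

end Pool.Agent.Helper83.QF
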