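import Pool.Agent.Helper83.QF.Inv

/-!
# Block SNG1: a binary quartic with discriminant zero has a double root

If `c 0 ≠ 0` the quartic is `c 0 ∏ (x₀ - z i x₁)` and `dsc c = 27 c 0 ^ 6 ∏ (z i - z j) ^ 2`; if `c 4 ≠ 0`
exchange the variables; if `c 0 = c 4 = 0` then `dsc c = 27 (c 1 c 3) ^ 2 (c 2 ^ 2 - 4 c 1 c 3)`.
-/

namespace Pool.Agent.Helper83.QF

open Polynomial

universe u

section

variable {k : Type u} [Field k] [IsAlgClosed k]

private lemma root4_59 {a : k} (ha : a ≠ 0) (b c d e : k) :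
    ∃ z, a * z ^ 4 + b * z ^ 3 + c * z ^ 2 + d * z + e = 0 := by
  have h1 : (C a * X ^ 4 + C b * X ^ 3 + C c * X ^ 2 + C d * X + C e : k[X]).degree = 4 := by
    compute_degree!
  obtain ⟨z, hz⟩ := IsAlgClosed.exists_root (C a * X ^ 4 + C b * X ^ 3 + C c * X ^ 2 + C d * X + C e : k[X])
    (by rw [h1]; norm_num)
  refine ⟨z, ?_⟩
  simpa [IsRoot.def] using hz

private lemma root3_59 {a : k} (ha : a ≠ 0) (b c d : k) :
    ∃ z, a * z ^ 3 + b * z ^ 2 + c * z + d = 0 := by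
  have h1 : (C a * X ^ 3 + C b * X ^ 2 + C c * X + C d : k[X]).degree = 3 := by
    compute_degree!
  obtain ⟨z, hz⟩ := IsAlgClosed.exists_root (C a * X ^ 3 + C b * X ^ 2 + C c * X + C d : k[X])
    (by rw [h1]; norm_num)
  refine ⟨z, ?_⟩
  simpa [IsRoot.def] using hz

private lemma root2_59 {a : k} (ha : a ≠ 0) (b c : k) :
    ∃ z, a * z ^ 2 + b * z + c = 0 := by
  have h1 : (C a * X ^ 2 + C b * X + C c : k[X]).degree = 2 := by
    compute_degree!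
  obtain ⟨z, hz⟩ := IsAlgClosed.exists_root (C a * X ^ 2 + C b * X + C c : k[X])
    (by rw [h1]; norm_num)
  refine ⟨z, ?_⟩
  simpa [IsRoot.def] using hz

/-- Vieta. -/
private lemma vieta_59 {c0 : k} (h0 : c0 ≠ 0) (c1 c2 c3 c4 : k) :
    ∃ z1 z2 z3 z4 : k, c1 = - c0 * (z1 + z2 + z3 + z4) ∧
      c2 = c0 * (z1 * z2 + z1 * z3 + z1 * z4 + z2 * z3 + z2 * z4 + z3 * z4) ∧
      c3 = - c0 * (z1 * z2 * z3 + z1 * z2 * z4 + z1 * z3 * z4 + z2 * z3 * z4) ∧
      c4 = c0 * (z1 * z2 * z3 * z4) := by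
  obtain ⟨z1, h1⟩ := root4_59 h0 c1 c2 c3 c4
  obtain ⟨z2, h2⟩ := root3_59 h0 (c1 + c0 * z1) (c2 + (c1 + c0 * z1) * z1) (c3 + (c2 + (c1 + c0 * z1) * z1) * z1)
  obtain ⟨z3, h3⟩ := root2_59 h0 (c1 + c0 * z1 + c0 * z2) (c2 + (c1 + c0 * z1) * z1 + (c1 + c0 * z1 + c0 * z2) * z2)
  refine ⟨z1, z2, z3, -(c1 + c0 * z1 + c0 * z2 + c0 * z3) / c0, ?_, ?_, ?_, ?_⟩
  · field_simp
    ring
  · field_simp
    linear_combination h3
  · field_simp
    linear_combination h2 - (z1 + z2) * h3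
  · field_simp
    linear_combination h1 - z1 * h2 + z1 * z2 * h3

end

variable {k : Type u} [Field k] [IsAlgClosed k] [CharZero k]

private lemma dbl0_59 (c0 c1 c2 c3 c4 : k) (h0 : c0 ≠ 0)
    (h : 4 * (12 * c0 * c4 - 3 * c1 * c3 + c2 ^ 2) ^ 3 -
      (72 * c0 * c2 * c4 + 9 * c1 * c2 * c3 - 27 * c0 * c3 ^ 2 - 27 * c4 * c1 ^ 2 - 2 * c2 ^ 3) ^ 2 = 0) :
    ∃ (z q₀ q₁ q₂ : k), ∀ x y : k, c0 * x ^ 4 + c1 * x ^ 3 * y + c2 * x ^ 2 * y ^ 2 + c3 * x * y ^ 3 + c4 * y ^ 4 =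
      (x - y * z) ^ 2 * (q₀ * x ^ 2 + q₁ * x * y + q₂ * y ^ 2) := by
  obtain ⟨z1, z2, z3, z4, h1, h2, h3, h4⟩ := vieta_59 h0 c1 c2 c3 c4
  have h5 : (27 : k) * c0 ^ 6 * ((z1 - z2) * (z1 - z3) * (z1 - z4) * (z2 - z3) * (z2 - z4) * (z3 - z4)) ^ 2 = 0 := by
    rw [← h, h1, h2, h3, h4]
    ring
  have h6 : (z1 - z2) * (z1 - z3) * (z1 - z4) * (z2 - z3) * (z2 - z4) * (z3 - z4) = 0 := by
    have h7 : (27 : k) * c0 ^ 6 ≠ 0 := mul_ne_zero (by norm_num) (pow_ne_zero _ h0)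
    exact pow_eq_zero_iff (two_ne_zero) |>.1 ((mul_eq_zero.1 h5).resolve_left h7)
  have key : ∀ a b d : k, (∀ x y : k, c0 * x ^ 4 + c1 * x ^ 3 * y + c2 * x ^ 2 * y ^ 2 + c3 * x * y ^ 3 + c4 * y ^ 4 =
      c0 * (x - y * a) * (x - y * a) * (x - y * b) * (x - y * d)) →
      ∃ (z q₀ q₁ q₂ : k), ∀ x y : k, c0 * x ^ 4 + c1 * x ^ 3 * y + c2 * x ^ 2 * y ^ 2 + c3 * x * y ^ 3 + c4 * y ^ 4 =
      (x - y * z) ^ 2 * (q₀ * x ^ 2 + q₁ * x * y + q₂ * y ^ 2) := by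
    intro a b d hh
    refine ⟨a, c0, - c0 * (b + d), c0 * (b * d), fun x y => ?_⟩
    rw [hh x y]
    ring
  have hfac : ∀ x y : k, c0 * x ^ 4 + c1 * x ^ 3 * y + c2 * x ^ 2 * y ^ 2 + c3 * x * y ^ 3 + c4 * y ^ 4 =
      c0 * (x - y * z1) * (x - y * z2) * (x - y * z3) * (x - y * z4) := by
    intro x y
    rw [h1, h2, h3, h4]
    ring
  rcases mul_eq_zero.1 h6 with h6 | h6
  · rcases mul_eq_zero.1 h6 with h6 | h6
    · rcases mul_eq_zero.1 h6 with h6 | h6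
      · rcases mul_eq_zero.1 h6 with h6 | h6
        · rcases mul_eq_zero.1 h6 with h6 | h6
          · have h7 : z1 = z2 := sub_eq_zero.1 h6
            exact key z1 z3 z4 fun x y => by rw [hfac x y, ← h7]
          · have h7 : z1 = z3 := sub_eq_zero.1 h6
            exact key z1 z2 z4 fun x y => by rw [hfac x y, ← h7]; ring
        · have h7 : z1 = z4 := sub_eq_zero.1 h6
          exact key z1 z2 z3 fun x y => by rw [hfac x y, ← h7]; ring
      · have h7 : z2 = z3 := sub_eq_zero.1 h6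
        exact key z2 z1 z4 fun x y => by rw [hfac x y, ← h7]; ring
    · have h7 : z2 = z4 := sub_eq_zero.1 h6
      exact key z2 z1 z3 fun x y => by rw [hfac x y, ← h7]; ring
  · have h7 : z3 = z4 := sub_eq_zero.1 h6
    exact key z3 z1 z2 fun x y => by rw [hfac x y, ← h7]; ring

/-- A quartic with discriminant zero has a double root. -/
theorem exists_double (c : Fin 5 → k)
    (h : dsc c = 0) : ∃ (p : Fin 2 → k) (q₀ q₁ q₂ : k), p ≠ 0 ∧ ∀ x : Fin 2 → k,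
      qu c x = (x 0 * p 1 - x 1 * p 0) ^ 2 * (q₀ * x 0 ^ 2 + q₁ * x 0 * x 1 + q₂ * x 1 ^ 2) := by
  unfold dsc bI bJ at h
  unfold qu
  by_cases h0 : c 0 = 0
  · by_cases h4 : c 4 = 0
    · rw [h0, h4] at h
      have h5 : (27 : k) * ((c 1 * c 3) ^ 2 * (c 2 ^ 2 - 4 * c 1 * c 3)) = 0 := by
        rw [← h]
        ring
      have h6 : (c 1 * c 3) ^ 2 * (c 2 ^ 2 - 4 * c 1 * c 3) = 0 := (mul_eq_zero.1 h5).resolve_left (by norm_num)
      by_cases h1 : c 1 = 0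
      · refine ⟨![1, 0], c 2, c 3, 0, fun h => one_ne_zero (congrFun h 0), fun x => ?_⟩
        simp only [Matrix.cons_val_zero, Matrix.cons_val_one]
        rw [h0, h4, h1]
        ring
      · by_cases h3 : c 3 = 0
        · refine ⟨![0, 1], 0, c 1, c 2, fun h => one_ne_zero (congrFun h 1), fun x => ?_⟩
          simp only [Matrix.cons_val_zero, Matrix.cons_val_one]
          rw [h0, h4, h3]
          ring
        · have h7 : c 2 ^ 2 - 4 * c 1 * c 3 = 0 :=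
            (mul_eq_zero.1 h6).resolve_left (pow_ne_zero _ (mul_ne_zero h1 h3))
          refine ⟨![- c 2 / (2 * c 1), 1], 0, c 1, 0, fun h => one_ne_zero (congrFun h 1), fun x => ?_⟩
          simp only [Matrix.cons_val_zero, Matrix.cons_val_one]
          have h8 : c 3 = c 2 ^ 2 / (4 * c 1) := by
            have h9 : (4 : k) * c 1 ≠ 0 := mul_ne_zero (by norm_num) h1
            rw [eq_div_iff h9]
            linear_combination - h7
          rw [h0, h4, h8]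
          field_simp
          ring
    · obtain ⟨z, q₀, q₁, q₂, hz⟩ := dbl0_59 (c 4) (c 3) (c 2) (c 1) (c 0) h4 (by rw [← h]; ring)
      refine ⟨![1, z], q₂, q₁, q₀, fun h => one_ne_zero (congrFun h 0), fun x => ?_⟩
      simp only [Matrix.cons_val_zero, Matrix.cons_val_one]
      have h5 := hz (x 1) (x 0)
      linear_combination h5
  · obtain ⟨z, q₀, q₁, q₂, hz⟩ := dbl0_59 (c 0) (c 1) (c 2) (c 3) (c 4) h0 h
    refine ⟨![z, 1], q₀, q₁, q₂, fun h => one_ne_zero (congrFun h 1), fun x => ?_⟩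
    simp only [Matrix.cons_val_zero, Matrix.cons_val_one]
    have h5 := hz (x 0) (x 1)
    linear_combination h5

end Pool.Agent.Helper83.QF
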