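import Mathlib
import Pool.Agent.Helper9.NS
import Pool.Agent.Helper83.KV.FF
import Pool.Agent.Helper83.QF.Pt
import Pool.Agent.Helper83.QF.Dbl

/-!
# Block SNG: points of singular fibres
Proof. `P = mk a`, `r = a.u`, `c = cf Q r`, `dsc c = 0` (`dq_mk`). If `a.w = 0`, `neg P = P` and
`ψ P = 0`. Let `a.w ≠ 0`. (1) Since `dsc c = 0` the quartic has a double root `p ≠ 0`:
`qu c x = [x, p] ^ 2 (q₀ x₀ ^ 2 + q₁ x₀ x₁ + q₂ x₁ ^ 2)` for all `x` (`exists_double`: move a root to
`(1, 0)`; then the quartic is `x₁` times a cubic with discriminant zero, explicit formulas). The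
quadratic form is a product of two linear forms `ℓ₁ ℓ₂`.
(2) If `ℓ₁, ℓ₂` are linearly independent, let `x(s)` be the vector with `ℓ₁ x = s ^ 2`,
`ℓ₂ x = ℓ₂ (a.x) = t₀ ^ 2`: the K-point `(r; x(s), s t₀ [x(s), p])` over `K = k(s)` is `P` at
`s = s₀` and has `w = 0` at `s = 0` where `ψ = 0`; `path` gives `ψ P = 0`. If `ℓ₁ = m ℓ₂`: the point
`(r; x(θ), √m [x(θ), p] ℓ₂ (x(θ)))`, `x(θ) = θ a.x + (1 - θ) p` (never zero since `a.x, p` are
independent) is `P` at `θ = 1`, and at `θ = 0` it has `w = 0`.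
(`[x, p] = x 0 * p 1 - x 1 * p 0`.) Compare
`Helper51/VK/Nod.lean` for the same argument with a cubic.
-/

set_option linter.unusedSectionVars false

namespace Pool.Agent.Helper83.QF

open VC VF Function

universe u

/-- the identity of forms in terms of the coefficients -/
private structure Dbl85 {k : Type u} [Field k] (c : Fin 5 → k) (p : Fin 2 → k) (q₀ q₁ q₂ : k) :
    Prop where
  c0 : c 0 = p 1 ^ 2 * q₀
  c1 : c 1 = p 1 ^ 2 * q₁ - 2 * p 0 * p 1 * q₀
  c2 : c 2 = p 1 ^ 2 * q₂ - 2 * p 0 * p 1 * q₁ + p 0 ^ 2 * q₀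
  c3 : c 3 = p 0 ^ 2 * q₁ - 2 * p 0 * p 1 * q₂
  c4 : c 4 = p 0 ^ 2 * q₂

private lemma dbl0_85 {k : Type u} [Field k] [CharZero k] (c : Fin 5 → k) (h0 : c 0 = 0)
    (h : dsc c = 0) : ∃ (p : Fin 2 → k) (q₀ q₁ q₂ : k), p ≠ 0 ∧ Dbl85 c p q₀ q₁ q₂ := by
  by_cases h1 : c 1 = 0
  · refine ⟨![1, 0], c 2, c 3, c 4, ?_, ?_⟩
    · intro hp
      exact one_ne_zero (congrFun hp 0)
    · constructor
      · rw [h0, Matrix.cons_val_one, Matrix.cons_val_fin_one]
        ring
      · rw [h1, Matrix.cons_val_one, Matrix.cons_val_fin_one]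
        ring
      · rw [Matrix.cons_val_zero, Matrix.cons_val_one, Matrix.cons_val_fin_one]
        ring
      · rw [Matrix.cons_val_zero, Matrix.cons_val_one, Matrix.cons_val_fin_one]
        ring
      · rw [Matrix.cons_val_zero]
        ring
  · have hI : ∃ s : k, s ^ 2 = bI c ∧ -2 * bI c * s = bJ c := by
      by_cases hI0 : bI c = 0
      · refine ⟨0, ?_, ?_⟩
        · rw [hI0]; ring
        · have h2 : bJ c ^ 2 = 0 := by
            unfold dsc at h
            rw [hI0] at h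
            linear_combination -h
          rw [(pow_eq_zero_iff two_ne_zero).1 h2]
          ring
      · refine ⟨-bJ c / (2 * bI c), ?_, ?_⟩
        · unfold dsc at h
          field_simp
          linear_combination -h
        · field_simp
    obtain ⟨s, hs1, hs2⟩ := hI
    have e3 : 3 * c 1 * c 3 = c 2 ^ 2 - s ^ 2 := by
      rw [hs1]
      unfold bI
      rw [h0]
      ring
    have e4 : 27 * c 1 ^ 2 * c 4 = (c 2 - s) ^ 2 * (c 2 + 2 * s) := by
      have h2 : -2 * s ^ 3 = bJ c := by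
        rw [← hs2, ← hs1]; ring
      unfold bJ at h2
      rw [h0] at h2
      linear_combination h2 + 3 * c 2 * e3
    have h3 : (3 * c 1 : k) ≠ 0 := mul_ne_zero (by norm_num) h1
    refine ⟨![s - c 2, 3 * c 1], 0, 1 / (9 * c 1), (c 2 + 2 * s) / (27 * c 1 ^ 2), ?_, ?_⟩
    · intro hp
      exact h3 (congrFun hp 1)
    · constructor
      · rw [h0, mul_zero]
      · simp only [Matrix.cons_val_zero, Matrix.cons_val_one]
        field_simp
        ring
      · simp only [Matrix.cons_val_zero, Matrix.cons_val_one]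
        field_simp
        ring
      · simp only [Matrix.cons_val_zero, Matrix.cons_val_one]
        field_simp
        linear_combination 81 * e3
      · simp only [Matrix.cons_val_zero]
        field_simp
        linear_combination e4

private lemma dbl85 {k : Type u} [Field k] [IsAlgClosed k] [CharZero k] (c : Fin 5 → k)
    (h : dsc c = 0) : ∃ (p : Fin 2 → k) (q₀ q₁ q₂ : k), p ≠ 0 ∧ Dbl85 c p q₀ q₁ q₂ := by
  by_cases h0 : c 0 = 0
  · exact dbl0_85 c h0 h
  obtain ⟨z, hz⟩ : ∃ z : k, c 0 * z ^ 4 + c 1 * z ^ 3 + c 2 * z ^ 2 + c 3 * z + c 4 = 0 := by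
    have hdeg : (Polynomial.C (c 0) * Polynomial.X ^ 4 + Polynomial.C (c 1) * Polynomial.X ^ 3 +
        Polynomial.C (c 2) * Polynomial.X ^ 2 + Polynomial.C (c 3) * Polynomial.X +
        Polynomial.C (c 4)).degree ≠ 0 := by
      have h1 : (Polynomial.C (c 0) * Polynomial.X ^ 4 + Polynomial.C (c 1) * Polynomial.X ^ 3 +
        Polynomial.C (c 2) * Polynomial.X ^ 2 + Polynomial.C (c 3) * Polynomial.X +
        Polynomial.C (c 4)).natDegree = 4 := by
        compute_degree!
      intro h2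
      have h3 := Polynomial.natDegree_eq_of_degree_eq_some h2
      rw [h1] at h3
      exact absurd h3 (by norm_num)
    obtain ⟨z, hz⟩ := IsAlgClosed.exists_root _ hdeg
    refine ⟨z, ?_⟩
    simpa [Polynomial.IsRoot] using hz
  set c' : Fin 5 → k := ![0, 4 * c 0 * z ^ 3 + 3 * c 1 * z ^ 2 + 2 * c 2 * z + c 3,
    6 * c 0 * z ^ 2 + 3 * c 1 * z + c 2, 4 * c 0 * z + c 1, c 0] with hc'
  have v0 : c' 0 = 0 := rfl
  have v1 : c' 1 = 4 * c 0 * z ^ 3 + 3 * c 1 * z ^ 2 + 2 * c 2 * z + c 3 := rfl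
  have v2 : c' 2 = 6 * c 0 * z ^ 2 + 3 * c 1 * z + c 2 := rfl
  have v3 : c' 3 = 4 * c 0 * z + c 1 := rfl
  have v4 : c' 4 = c 0 := rfl
  have hI : bI c' = bI c := by
    simp only [bI, v0, v1, v2, v3, v4]
    linear_combination (-12 * c 0) * hz
  have hJ : bJ c' = bJ c := by
    simp only [bJ, v0, v1, v2, v3, v4]
    linear_combination (27 * c 1 ^ 2 - 72 * c 0 * c 2) * hz
  have hd : dsc c' = 0 := by
    rw [dsc, hI, hJ]
    exact h
  obtain ⟨p, q₀, q₁, q₂, hp, hD⟩ := dbl0_85 c' rfl hd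
  refine ⟨![p 1 + z * p 0, p 0], q₂, q₁ - 2 * z * q₂, q₀ - z * q₁ + z ^ 2 * q₂, ?_, ?_⟩
  · intro h1
    apply hp
    have h2 : p 0 = 0 := congrFun h1 1
    have h3 : p 1 + z * p 0 = 0 := congrFun h1 0
    rw [h2, mul_zero, add_zero] at h3
    funext i
    fin_cases i
    · exact h2
    · exact h3
  · obtain ⟨e0, e1, e2, e3, e4⟩ := hD
    rw [v0] at e0
    rw [v1] at e1
    rw [v2] at e2
    rw [v3] at e3
    rw [v4] at e4
    have w0 : (![p 1 + z * p 0, p 0] : Fin 2 → k) 0 = p 1 + z * p 0 := rfl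
    have w1 : (![p 1 + z * p 0, p 0] : Fin 2 → k) 1 = p 0 := rfl
    constructor
    · rw [w1, e4]
    · rw [w0, w1]
      linear_combination e3 - 4 * z * e4
    · rw [w0, w1]
      linear_combination e2 - 3 * z * e3 + 6 * z ^ 2 * e4
    · rw [w0, w1]
      linear_combination e1 - 2 * z * e2 + 3 * z ^ 2 * e3 - 4 * z ^ 3 * e4
    · rw [w0]
      linear_combination hz + e0 - z * e1 + z ^ 2 * e2 - z ^ 3 * e3 + z ^ 4 * e4

private lemma quad85 {k : Type u} [Field k] [IsAlgClosed k] [CharZero k] (q₀ q₁ q₂ : k) :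
    ∃ a₀ a₁ b₀ b₁ : k, q₀ = a₀ * b₀ ∧ q₁ = a₀ * b₁ + a₁ * b₀ ∧ q₂ = a₁ * b₁ := by
  by_cases h : q₀ = 0
  · exact ⟨0, 1, q₁, q₂, by rw [h, zero_mul], by ring, by ring⟩
  · obtain ⟨δ, hδ⟩ := IsAlgClosed.exists_pow_nat_eq (q₁ ^ 2 - 4 * q₀ * q₂) (n := 2) (by norm_num)
    refine ⟨q₀, (q₁ + δ) / 2, 1, (q₁ - δ) / (2 * q₀), by ring, ?_, ?_⟩
    · field_simp
      ring
    · field_simp
      linear_combination hδ

private lemma quK85 {k : Type u} [Field k] {K : Type u} [Field K] [Algebra k K] {Q : Qua k}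
    {r p : Fin 2 → k} {a₀ a₁ b₀ b₁ : k}
    (hD : Dbl85 (cf Q r) p (a₀ * b₀) (a₀ * b₁ + a₁ * b₀) (a₁ * b₁)) (x : Fin 2 → K) :
    qu (cf Q (fun i => algebraMap k K (r i))) x =
      (x 0 * algebraMap k K (p 1) - x 1 * algebraMap k K (p 0)) ^ 2 *
      ((algebraMap k K a₀ * x 0 + algebraMap k K a₁ * x 1) *
        (algebraMap k K b₀ * x 0 + algebraMap k K b₁ * x 1)) := by
  have e : ∀ i, cf Q (fun i => algebraMap k K (r i)) i = algebraMap k K (cf Q r i) := fun i =>
    MvPolynomial.aeval_algebraMap_apply K r (Q.a i)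
  rw [qu, e, e, e, e, e, hD.c0, hD.c1, hD.c2, hD.c3, hD.c4]
  simp only [map_mul, map_sub, map_add, map_pow, map_ofNat]
  ring

private lemma quk85 {k : Type u} [Field k] {Q : Qua k}
    {r p : Fin 2 → k} {a₀ a₁ b₀ b₁ : k}
    (hD : Dbl85 (cf Q r) p (a₀ * b₀) (a₀ * b₁ + a₁ * b₀) (a₁ * b₁)) (x : Fin 2 → k) :
    qu (cf Q r) x = (x 0 * p 1 - x 1 * p 0) ^ 2 *
      ((a₀ * x 0 + a₁ * x 1) * (b₀ * x 0 + b₁ * x 1)) := by
  rw [qu, hD.c0, hD.c1, hD.c2, hD.c3, hD.c4]
  ring

variable {k : Type u} [Field k] [IsAlgClosed k] [CharZero k] {Q : Qua k}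

/-- the general form of the two paths -/
private lemma walk85 {ψ : Q.surface.Pt → k} (h : Kills Q.surface ψ)
    (ho : ∀ p, ψ (neg p) = -ψ p) {r : Fin 2 → k} (hr : r ≠ 0) (x : Fin 2 → Polynomial k)
    (w : Polynomial k) {t₁ : k} (ht : t₁ ≠ 0) (hx : ∀ t, (fun i => (x i).eval t) ≠ 0)
    (hw0 : w.eval 0 = 0) (hK : ∀ (K : Type u) [Field K] [Algebra k K] (τ : K),
      (Polynomial.aeval τ w) ^ 2 = qu (cf Q (fun i => algebraMap k K (r i)))
        (fun i => Polynomial.aeval τ (x i))) :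
    ψ (qpt Q r (fun i => (x i).eval t₁) (w.eval t₁)) = 0 := by
  have hfix : ∀ p, neg p = p → ψ p = 0 := by
    intro p hp
    have h1 := ho p
    rw [hp] at h1
    have h2 : (2 : k) * ψ p = 0 := by linear_combination h1
    exact (mul_eq_zero.mp h2).resolve_left two_ne_zero
  obtain ⟨K, _, _, τ, _, hKf, hτ, _⟩ := exists_poly_roots (k := k) two_ne_zero
    (fun _ : Fin 0 => (Polynomial.X : Polynomial k))
  have key : ∀ (t : k) (v : Place k K), IsRes v τ t →
      Q.surface.eval hKf (qpt Q (fun i => algebraMap k K (r i))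
        (fun i => Polynomial.aeval τ (x i)) (Polynomial.aeval τ w)) v =
        qpt Q r (fun i => (x i).eval t) (w.eval t) := by
    intro t v hv
    exact eval_qpt hKf v (hK K τ) hr (hx t) (fun i => isRes_const _) (fun i => hv.poly) hv.poly
  have hk : ∀ t : k, (w.eval t) ^ 2 = qu (cf Q r) (fun i => (x i).eval t) := by
    intro t
    have h1 := hK k t
    simp only [Polynomial.coe_aeval_eq_eval] at h1
    exact h1
  have h0 : ψ (qpt Q r (fun i => (x i).eval 0) (w.eval 0)) = 0 := by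
    apply hfix
    rw [neg_qpt hr (hx 0) (hk 0), hw0, neg_zero]
  have h5 := path h hKf _ hτ (a := 0) (b := t₁) ht.symm (A := 0)
    (B := ψ (qpt Q r (fun i => (x i).eval t₁) (w.eval t₁)))
    (fun v hv => by rw [key 0 v hv, h0]) (fun v hv => by rw [key t₁ v hv])
  exact h5.symm

theorem sing_zero {ψ : Q.surface.Pt → k} (h : Kills Q.surface ψ)
    (ho : ∀ p, ψ (neg p) = -ψ p) {P : QPt Q k} (hd : ¬ DQ P) : ψ P = 0 := by
  obtain ⟨a, rfl⟩ := exists_mk P
  rw [dq_mk, not_not] at hd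
  obtain ⟨p, q₀, q₁, q₂, hp, hD⟩ := dbl85 _ hd
  obtain ⟨a₀, a₁, b₀, b₁, rfl, rfl, rfl⟩ := quad85 q₀ q₁ q₂
  have hP : QPt.mk a = qpt Q a.u a.x a.w := (qpt_eq a.u_ne a.x_ne a.eqn).symm
  have hfix : ∀ p, neg p = p → ψ p = 0 := by
    intro p hp
    have h1 := ho p
    rw [hp] at h1
    have h2 : (2 : k) * ψ p = 0 := by linear_combination h1
    exact (mul_eq_zero.mp h2).resolve_left two_ne_zero
  by_cases hw : a.w = 0
  · apply hfix
    rw [hP, neg_qpt a.u_ne a.x_ne a.eqn, hw, neg_zero]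
  have hq := a.eqn
  rw [quk85 hD] at hq
  set d := a.x 0 * p 1 - a.x 1 * p 0 with hd'
  set A := a₀ * a.x 0 + a₁ * a.x 1 with hA
  set B := b₀ * a.x 0 + b₁ * a.x 1 with hB
  have hd0 : d ≠ 0 := by
    intro h0
    rw [h0] at hq
    apply hw
    have : a.w ^ 2 = 0 := by rw [hq]; ring
    exact (pow_eq_zero_iff two_ne_zero).1 this
  have hA0 : A ≠ 0 := by
    intro h0
    rw [h0] at hq
    apply hw
    have : a.w ^ 2 = 0 := by rw [hq]; ring
    exact (pow_eq_zero_iff two_ne_zero).1 this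
  have hB0 : B ≠ 0 := by
    intro h0
    rw [h0] at hq
    apply hw
    have : a.w ^ 2 = 0 := by rw [hq]; ring
    exact (pow_eq_zero_iff two_ne_zero).1 this
  by_cases hdet : a₀ * b₁ - a₁ * b₀ = 0
  · -- proportional forms
    obtain ⟨μ, hμ⟩ : ∃ μ : k, μ ^ 2 * B = A ∧ d * μ * B = a.w := by
      obtain ⟨μ, hμ⟩ := IsAlgClosed.exists_pow_nat_eq (A / B) (n := 2) (by norm_num)
      have h1 : μ ^ 2 * B = A := by
        rw [hμ]
        field_simp
      have h2 : (d * μ * B) ^ 2 = a.w ^ 2 := by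
        rw [hq]
        linear_combination d ^ 2 * B * h1
      rcases sq_eq_sq_iff_eq_or_eq_neg.1 h2 with h3 | h3
      · exact ⟨μ, h1, h3⟩
      · refine ⟨-μ, by rw [neg_sq]; exact h1, ?_⟩
        linear_combination -h3
    obtain ⟨hμ1, hμ2⟩ := hμ
    have ha0 : a₀ = μ ^ 2 * b₀ := by
      have h1 : a₀ * B = μ ^ 2 * b₀ * B := by
        linear_combination (-b₀) * hμ1 + b₀ * hA + a₀ * hB + a.x 1 * hdet
      exact mul_right_cancel₀ hB0 h1
    have ha1 : a₁ = μ ^ 2 * b₁ := by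
      have h1 : a₁ * B = μ ^ 2 * b₁ * B := by
        linear_combination (-b₁) * hμ1 + b₁ * hA + a₁ * hB - a.x 0 * hdet
      exact mul_right_cancel₀ hB0 h1
    have h1 := walk85 h ho a.u_ne
      (fun i => Polynomial.X * Polynomial.C (a.x i) + (1 - Polynomial.X) * Polynomial.C (p i))
      (Polynomial.X * Polynomial.C (d * μ) *
        (Polynomial.C b₀ * (Polynomial.X * Polynomial.C (a.x 0) +
          (1 - Polynomial.X) * Polynomial.C (p 0)) +
        Polynomial.C b₁ * (Polynomial.X * Polynomial.C (a.x 1) +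
          (1 - Polynomial.X) * Polynomial.C (p 1)))) (t₁ := 1) one_ne_zero ?_ ?_ ?_
    · rw [hP]
      convert h1 using 3
      · funext i
        simp
      · rw [← hμ2]
        simp [hB]
    · intro t h0
      have e0 := congrFun h0 0
      have e1 := congrFun h0 1
      simp only [Polynomial.eval_add, Polynomial.eval_mul, Polynomial.eval_X, Polynomial.eval_C,
        Polynomial.eval_sub, Polynomial.eval_one, Pi.zero_apply] at e0 e1
      have e2 : t * d = 0 := by
        rw [hd']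
        linear_combination p 1 * e0 - p 0 * e1
      have e3 : t = 0 := (mul_eq_zero.1 e2).resolve_right hd0
      apply hp
      funext i
      fin_cases i
      · rw [e3] at e0
        simpa using e0
      · rw [e3] at e1
        simpa using e1
    · simp
    · intro K _ _ τ
      rw [quK85 hD]
      simp only [map_mul, map_add, map_sub, map_one, Polynomial.aeval_X, Polynomial.aeval_C]
      rw [ha0, ha1, hd']
      simp only [map_mul, map_sub, map_pow]
      ring
  · -- independent forms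
    obtain ⟨s₀, t₀, hs, ht, hst⟩ : ∃ s₀ t₀ : k, s₀ ^ 2 = A ∧ t₀ ^ 2 = B ∧ s₀ * t₀ * d = a.w := by
      obtain ⟨s₀, hs⟩ := IsAlgClosed.exists_pow_nat_eq A (n := 2) (by norm_num)
      obtain ⟨t₀, ht⟩ := IsAlgClosed.exists_pow_nat_eq B (n := 2) (by norm_num)
      have h2 : (s₀ * t₀ * d) ^ 2 = a.w ^ 2 := by
        rw [hq]
        linear_combination d ^ 2 * t₀ ^ 2 * hs + d ^ 2 * A * ht
      rcases sq_eq_sq_iff_eq_or_eq_neg.1 h2 with h3 | h3
      · exact ⟨s₀, t₀, hs, ht, h3⟩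
      · refine ⟨-s₀, t₀, by rw [neg_sq]; exact hs, ht, ?_⟩
        linear_combination -h3
    have hs0 : s₀ ≠ 0 := by
      rintro rfl
      apply hw
      rw [← hst]
      ring
    obtain ⟨e, he1, he2⟩ : ∃ e : Fin 2 → k, a₀ * e 0 + a₁ * e 1 = 1 ∧ b₀ * e 0 + b₁ * e 1 = 0 := by
      refine ⟨![b₁ / (a₀ * b₁ - a₁ * b₀), -b₀ / (a₀ * b₁ - a₁ * b₀)], ?_, ?_⟩
      · simp only [Matrix.cons_val_zero, Matrix.cons_val_one]
        field_simp
        ring
      · simp only [Matrix.cons_val_zero, Matrix.cons_val_one]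
        field_simp
        ring
    have h1 := walk85 h ho a.u_ne
      (fun i => Polynomial.C (a.x i) + (Polynomial.X ^ 2 - Polynomial.C (s₀ ^ 2)) *
        Polynomial.C (e i))
      (Polynomial.X * Polynomial.C t₀ *
        ((Polynomial.C (a.x 0) + (Polynomial.X ^ 2 - Polynomial.C (s₀ ^ 2)) *
          Polynomial.C (e 0)) * Polynomial.C (p 1) -
        (Polynomial.C (a.x 1) + (Polynomial.X ^ 2 - Polynomial.C (s₀ ^ 2)) *
          Polynomial.C (e 1)) * Polynomial.C (p 0))) (t₁ := s₀) hs0 ?_ ?_ ?_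
    · rw [hP]
      convert h1 using 3
      · funext i
        simp
      · rw [← hst, hd']
        simp only [Polynomial.eval_mul, Polynomial.eval_add, Polynomial.eval_sub,
          Polynomial.eval_pow, Polynomial.eval_X, Polynomial.eval_C]
        ring
    · intro t h0
      have e0 := congrFun h0 0
      have e1 := congrFun h0 1
      simp only [Polynomial.eval_add, Polynomial.eval_mul, Polynomial.eval_X, Polynomial.eval_C,
        Polynomial.eval_sub, Polynomial.eval_pow, Pi.zero_apply] at e0 e1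
      apply hB0
      rw [hB]
      linear_combination b₀ * e0 + b₁ * e1 - (t ^ 2 - s₀ ^ 2) * he2
    · simp
    · intro K _ _ τ
      rw [quK85 hD]
      simp only [map_mul, map_add, map_sub, map_pow, Polynomial.aeval_X, Polynomial.aeval_C]
      have k1 := congrArg (algebraMap k K) he1
      have k2 := congrArg (algebraMap k K) he2
      have k3 := congrArg (algebraMap k K) hs
      have k4 := congrArg (algebraMap k K) ht
      rw [hA] at k3
      rw [hB] at k4
      simp only [map_mul, map_add, map_pow, map_one, map_zero] at k1 k2 k3 k4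
      have f1 : algebraMap k K a₀ * (algebraMap k K (a.x 0) +
          (τ ^ 2 - algebraMap k K s₀ ^ 2) * algebraMap k K (e 0)) +
          algebraMap k K a₁ * (algebraMap k K (a.x 1) +
          (τ ^ 2 - algebraMap k K s₀ ^ 2) * algebraMap k K (e 1)) = τ ^ 2 := by
        linear_combination -k3 + (τ ^ 2 - algebraMap k K s₀ ^ 2) * k1
      have f2 : algebraMap k K b₀ * (algebraMap k K (a.x 0) +
          (τ ^ 2 - algebraMap k K s₀ ^ 2) * algebraMap k K (e 0)) +
          algebraMap k K b₁ * (algebraMap k K (a.x 1) +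
          (τ ^ 2 - algebraMap k K s₀ ^ 2) * algebraMap k K (e 1)) = algebraMap k K t₀ ^ 2 := by
        linear_combination -k4 + (τ ^ 2 - algebraMap k K s₀ ^ 2) * k2
      rw [f1, f2]
      ring

end Pool.Agent.Helper83.QF
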