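import Mathlib
import Pool.Agent.Helper9.NS
import Pool.Agent.Helper83.QF.Pth

/-!
# Block UNI: points over the same point of the Jacobian fibration
Proof. `P = mk a`, `P' = mk a'`, after scaling `a.u = a'.u = r`; `c = cf Q r`, `dsc c ≠ 0`,
`p = a.x`, `q = a'.x`. By `over_mk` and `EW.mk_eq_iff`, `tw a` and `tw a'` are proportional
(the scalar `l` is `1` up to the obvious factors since the `u` agree; if `l ≠ 1` but `r` the same
then `l = 1`, because `r ≠ 0`): `tw a' = m * tw a`.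
If `a.w = 0` then `a'.w = 0` and conversely, then `neg P = P` and `ψ P = 0 = ψ P'`. Let both be `≠ 0`.
From `tw a' = m tw a`: `m a.w ^ 3 = a'.w ^ 3`, and so
 (1) `g4 c p * a'.w ^ 2 = g4 c q * a.w ^ 2`, (2) `g6 c p * a'.w ^ 3 = g6 c q * a.w ^ 3`.
Case A: `δ = p 0 * q 1 - p 1 * q 0 ≠ 0`. Let `c'` be the coefficients of `qu c (s p + t q)` in `s, t`:
`c' 0 = qu c p = a.w ^ 2`, `c' 4 = a'.w ^ 2`, `c' 1 = ` (sum `q i` times the partial derivative of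
`qu` at `p`) etc. Then `g4 c p * δ ^ 2 = 3 c' 1 ^ 2 - 8 c' 0 c' 2`, `g4 c q * δ ^ 2 = 3 c' 3 ^ 2 -
8 c' 2 c' 4`, `g6 c p * δ ^ 3 = c' 1 ^ 3 + 8 c' 0 ^ 2 c' 3 - 4 c' 0 c' 1 c' 2`,
`g6 c q * δ ^ 3 = - (c' 3 ^ 3 + 8 c' 1 c' 4 ^ 2 - 4 c' 2 c' 3 c' 4)`, `dsc c' = δ ^ 12 dsc c` (all by
`ring`). (1) becomes `c' 1 ^ 2 a'.w ^ 2 = c' 3 ^ 2 a.w ^ 2`, i.e. `c' 1 a'.w = ∓ c' 3 a.w`.
 Case A1: `c' 1 a'.w + c' 3 a.w = 0`. Let `α` be the quadratic form with `α (s p + t q) =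
 a.w s ^ 2 + c' 1 / (2 a.w) s t - a'.w t ^ 2`; then `qu c (s p + t q) = α ^ 2 + κ' s ^ 2 t ^ 2`,
 `κ' = c' 2 - c' 1 ^ 2 / (4 a.w ^ 2) + 2 a.w a'.w`, and `κ' ≠ 0` since otherwise `dsc c' = 0`.
 With `x = s p + t q`: `t = - [x, p] / δ`, `s = [x, q] / δ`. `two_pts` gives
 `ψ P = ψ P'`.
 Case A2: `c' 1 a'.w = c' 3 a.w` (and A1 false, so `c' 1 ≠ 0`): A1 holds for `neg P'` (replace
 `a'.w` by `- a'.w`), so `ψ P = ψ (neg P') = - ψ P'`; and (2) gives `g6 c p = 0` (a computation: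
 (2) times `δ ^ 3`: `2 c' 1 a'.w ^ 3 (c' 1 ^ 2 + 8 a.w ^ 3 a'.w - 4 c' 0 c' 2) = 0` and this
 bracket times `c' 1` is `g6 c p * δ ^ 3` by `c' 3 = c' 1 a'.w / a.w`, `c' 0 = a.w ^ 2`), so case B
 below gives `ψ P = ψ (neg P) = - ψ P`, `ψ P = 0`, `ψ P' = 0`.
Case B: `q = λ p`: `a'.w = ± λ ^ 2 a.w`. If `+`, `P' = P` (`qpt_smul`). If `-`, `P' = neg P` and (2)
gives `g6 c p = 0`. Claim: `g6 c p = 0`, `a.w ≠ 0` imply `ψ P = ψ (neg P)`: take `q'` with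
`δ = p 0 * q' 1 - p 1 * q' 0 ≠ 0`, `c'` as above for `p, q'`; `g6 c p = 0` reads
`c' 1 ^ 3 + 8 c' 0 ^ 2 c' 3 - 4 c' 0 c' 1 c' 2 = 0`. Let `α (s p + t q') = α₀ s ^ 2 + α₁ s t + α₂ t ^ 2`,
`α₀ = a.w`, `2 α₀ α₁ = c' 1`, `2 α₀ α₂ + α₁ ^ 2 = c' 2`; then `2 α₁ α₂ = c' 3` by the equation and
`qu c (s p + t q') = α ^ 2 + κ' t ^ 4`, `κ' ≠ 0` as `dsc c' ≠ 0`. `two_pts` with `p = q`,
`wp = a.w`, `wq = - a.w`.
-/

set_option linter.unusedSectionVars false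

namespace Pool.Agent.Helper83.QF

open VC VF Function
open Pool.Agent.Helper51.EW (Wei WPt)

universe u

variable {k : Type u} [Field k] [IsAlgClosed k] [CharZero k] {Q : Qua k}

section ring

variable {R : Type*} [CommRing R]

/-- The second coefficient of the quartic in the basis `p`, `q`. -/
private def d1 (c : Fin 5 → R) (p q : Fin 2 → R) : R :=
  4 * c 0 * p 0 ^ 3 * q 0 + c 1 * (3 * p 0 ^ 2 * q 0 * p 1 + p 0 ^ 3 * q 1) +
    c 2 * (2 * p 0 * q 0 * p 1 ^ 2 + 2 * p 0 ^ 2 * p 1 * q 1) +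
    c 3 * (q 0 * p 1 ^ 3 + 3 * p 0 * p 1 ^ 2 * q 1) + 4 * c 4 * p 1 ^ 3 * q 1

/-- The third coefficient of the quartic in the basis `p`, `q`. -/
private def d2 (c : Fin 5 → R) (p q : Fin 2 → R) : R :=
  6 * c 0 * p 0 ^ 2 * q 0 ^ 2 + c 1 * (3 * p 0 * q 0 ^ 2 * p 1 + 3 * p 0 ^ 2 * q 0 * q 1) +
    c 2 * (q 0 ^ 2 * p 1 ^ 2 + 4 * p 0 * q 0 * p 1 * q 1 + p 0 ^ 2 * q 1 ^ 2) +
    c 3 * (3 * q 0 * p 1 ^ 2 * q 1 + 3 * p 0 * p 1 * q 1 ^ 2) + 6 * c 4 * p 1 ^ 2 * q 1 ^ 2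

private lemma d2_symm (c : Fin 5 → R) (p q : Fin 2 → R) : d2 c q p = d2 c p q := by
  simp only [d2]
  ring

private lemma qu_basis (c : Fin 5 → R) (p q x : Fin 2 → R) :
    (p 0 * q 1 - p 1 * q 0) ^ 4 * qu c x =
      qu c p * (x 0 * q 1 - x 1 * q 0) ^ 4 +
      d1 c p q * (x 0 * q 1 - x 1 * q 0) ^ 3 * (p 0 * x 1 - p 1 * x 0) +
      d2 c p q * (x 0 * q 1 - x 1 * q 0) ^ 2 * (p 0 * x 1 - p 1 * x 0) ^ 2 +
      d1 c q p * (x 0 * q 1 - x 1 * q 0) * (p 0 * x 1 - p 1 * x 0) ^ 3 +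
      qu c q * (p 0 * x 1 - p 1 * x 0) ^ 4 := by
  simp only [qu, d1, d2]
  ring

private lemma g4_basis (c : Fin 5 → R) (p q : Fin 2 → R) :
    g4 c p * (p 0 * q 1 - p 1 * q 0) ^ 2 = 3 * d1 c p q ^ 2 - 8 * qu c p * d2 c p q := by
  simp only [qu, d1, d2, g4]
  ring

private lemma g6_basis (c : Fin 5 → R) (p q : Fin 2 → R) :
    g6 c p * (p 0 * q 1 - p 1 * q 0) ^ 3 =
      d1 c p q ^ 3 + 8 * qu c p ^ 2 * d1 c q p - 4 * qu c p * d1 c p q * d2 c p q := by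
  simp only [qu, d1, d2, g6]
  ring

private lemma g6_smul (c : Fin 5 → R) (l : R) (p : Fin 2 → R) :
    g6 c (fun i => l * p i) = l ^ 6 * g6 c p := by
  simp only [g6]
  ring

end ring

/-- A quartic which is a square has discriminant zero. -/
private lemma sq_dsc {c : Fin 5 → k} {a b d : k}
    (h : ∀ x : Fin 2 → k, qu c x = (a * x 0 ^ 2 + b * x 0 * x 1 + d * x 1 ^ 2) ^ 2) :
    dsc c = 0 := by
  have h10 := h ![1, 0]
  have h01 := h ![0, 1]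
  have h11 := h ![1, 1]
  have h1m := h ![1, -1]
  have h12 := h ![1, 2]
  simp only [qu, Matrix.cons_val_zero, Matrix.cons_val_one] at h10 h01 h11 h1m h12
  have e0 : c 0 = a ^ 2 := by linear_combination h10
  have e4 : c 4 = d ^ 2 := by linear_combination h01
  have e2 : c 2 = b ^ 2 + 2 * a * d := by
    linear_combination (1 / 2) * h11 + (1 / 2) * h1m - h10 - h01
  have e13 : c 1 + c 3 = 2 * b * (a + d) := by
    linear_combination (1 / 2) * h11 - (1 / 2) * h1m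
  have e14 : c 1 + 4 * c 3 = 2 * a * b + 8 * b * d := by
    linear_combination (1 / 2) * h12 - (1 / 2) * e0 - 2 * e2 - 8 * e4
  have e3 : c 3 = 2 * b * d := by
    linear_combination (1 / 3) * e14 - (1 / 3) * e13
  have e1 : c 1 = 2 * a * b := by
    linear_combination e13 - e3
  simp only [dsc, bI, bJ, e0, e1, e2, e3, e4]
  ring

/-- Two points in the basis which they form. -/
private lemma pts_a {ψ : Q.surface.Pt → k} (h : Kills Q.surface ψ) {r p q : Fin 2 → k} (hr : r ≠ 0)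
    (hp : p ≠ 0) (hq : q ≠ 0) (hδ : p 0 * q 1 - p 1 * q 0 ≠ 0) {w w' β κ : k} (hw : w ≠ 0)
    (hw' : w' ≠ 0) (hd : dsc (cf Q r) ≠ 0) (h0 : qu (cf Q r) p = w ^ 2)
    (h1 : d1 (cf Q r) p q = 2 * w * β) (h2 : d2 (cf Q r) p q = β ^ 2 - 2 * w * w' + κ)
    (h3 : d1 (cf Q r) q p = -2 * β * w') (h4 : qu (cf Q r) q = w' ^ 2) :
    ψ (qpt Q r p w) = ψ (qpt Q r q w') := by
  have hid : ∀ x : Fin 2 → k, qu (cf Q r) x =
      ((w * q 1 ^ 2 - β * q 1 * p 1 - w' * p 1 ^ 2) / (p 0 * q 1 - p 1 * q 0) ^ 2 * x 0 ^ 2 +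
        (-2 * w * q 0 * q 1 + β * (q 1 * p 0 + q 0 * p 1) + 2 * w' * p 0 * p 1) /
          (p 0 * q 1 - p 1 * q 0) ^ 2 * x 0 * x 1 +
        (w * q 0 ^ 2 - β * q 0 * p 0 - w' * p 0 ^ 2) / (p 0 * q 1 - p 1 * q 0) ^ 2 * x 1 ^ 2) ^ 2 +
      κ / (p 0 * q 1 - p 1 * q 0) ^ 4 * (x 0 * p 1 - x 1 * p 0) ^ 2 *
        (x 0 * q 1 - x 1 * q 0) ^ 2 := by
    intro x
    have e1 := qu_basis (cf Q r) p q x
    rw [h0, h1, h2, h3, h4] at e1
    have hδ4 : (p 0 * q 1 - p 1 * q 0) ^ 4 ≠ 0 := pow_ne_zero _ hδ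
    apply mul_left_cancel₀ hδ4
    rw [e1]
    have e2 : (w * q 1 ^ 2 - β * q 1 * p 1 - w' * p 1 ^ 2) / (p 0 * q 1 - p 1 * q 0) ^ 2 * x 0 ^ 2 +
        (-2 * w * q 0 * q 1 + β * (q 1 * p 0 + q 0 * p 1) + 2 * w' * p 0 * p 1) /
          (p 0 * q 1 - p 1 * q 0) ^ 2 * x 0 * x 1 +
        (w * q 0 ^ 2 - β * q 0 * p 0 - w' * p 0 ^ 2) / (p 0 * q 1 - p 1 * q 0) ^ 2 * x 1 ^ 2 =
        (w * (x 0 * q 1 - x 1 * q 0) ^ 2 + β * (x 0 * q 1 - x 1 * q 0) * (p 0 * x 1 - p 1 * x 0) -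
          w' * (p 0 * x 1 - p 1 * x 0) ^ 2) / (p 0 * q 1 - p 1 * q 0) ^ 2 := by
      ring
    rw [e2]
    generalize p 0 * q 1 - p 1 * q 0 = δ at *
    have e3 : x 0 * p 1 - x 1 * p 0 = -(p 0 * x 1 - p 1 * x 0) := by ring
    rw [e3]
    generalize x 0 * q 1 - x 1 * q 0 = s
    generalize p 0 * x 1 - p 1 * x 0 = t
    field_simp
    ring
  have hκ : κ / (p 0 * q 1 - p 1 * q 0) ^ 4 ≠ 0 := by
    intro h5
    apply hd
    apply sq_dsc (a := (w * q 1 ^ 2 - β * q 1 * p 1 - w' * p 1 ^ 2) / (p 0 * q 1 - p 1 * q 0) ^ 2)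
      (b := (-2 * w * q 0 * q 1 + β * (q 1 * p 0 + q 0 * p 1) + 2 * w' * p 0 * p 1) /
          (p 0 * q 1 - p 1 * q 0) ^ 2)
      (d := (w * q 0 ^ 2 - β * q 0 * p 0 - w' * p 0 ^ 2) / (p 0 * q 1 - p 1 * q 0) ^ 2)
    intro x
    rw [hid x, h5]
    ring
  have hδ2 : (p 0 * q 1 - p 1 * q 0) ^ 2 ≠ 0 := pow_ne_zero _ hδ
  refine two_pts h hr hp hq hκ hw hw' hid ?_ ?_
  · trans w * (p 0 * q 1 - p 1 * q 0) ^ 2 / (p 0 * q 1 - p 1 * q 0) ^ 2
    · ring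
    · rw [mul_div_cancel_right₀ _ hδ2]
  · trans -w' * (p 0 * q 1 - p 1 * q 0) ^ 2 / (p 0 * q 1 - p 1 * q 0) ^ 2
    · ring
    · rw [mul_div_cancel_right₀ _ hδ2]

/-- The two points with the same `x`, if the covariant of degree six vanishes. -/
private lemma pts_b {ψ : Q.surface.Pt → k} (h : Kills Q.surface ψ) {r p q : Fin 2 → k} (hr : r ≠ 0)
    (hp : p ≠ 0) (hδ : p 0 * q 1 - p 1 * q 0 ≠ 0) {w β γ κ : k} (hw : w ≠ 0)
    (hd : dsc (cf Q r) ≠ 0) (h0 : qu (cf Q r) p = w ^ 2)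
    (h1 : d1 (cf Q r) p q = 2 * w * β) (h2 : d2 (cf Q r) p q = β ^ 2 + 2 * w * γ)
    (h3 : d1 (cf Q r) q p = 2 * β * γ) (h4 : qu (cf Q r) q = γ ^ 2 + κ) :
    ψ (qpt Q r p w) = ψ (qpt Q r p (-w)) := by
  have hid : ∀ x : Fin 2 → k, qu (cf Q r) x =
      ((w * q 1 ^ 2 - β * q 1 * p 1 + γ * p 1 ^ 2) / (p 0 * q 1 - p 1 * q 0) ^ 2 * x 0 ^ 2 +
        (-2 * w * q 0 * q 1 + β * (q 1 * p 0 + q 0 * p 1) - 2 * γ * p 0 * p 1) /
          (p 0 * q 1 - p 1 * q 0) ^ 2 * x 0 * x 1 +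
        (w * q 0 ^ 2 - β * q 0 * p 0 + γ * p 0 ^ 2) / (p 0 * q 1 - p 1 * q 0) ^ 2 * x 1 ^ 2) ^ 2 +
      κ / (p 0 * q 1 - p 1 * q 0) ^ 4 * (x 0 * p 1 - x 1 * p 0) ^ 2 *
        (x 0 * p 1 - x 1 * p 0) ^ 2 := by
    intro x
    have e1 := qu_basis (cf Q r) p q x
    rw [h0, h1, h2, h3, h4] at e1
    have hδ4 : (p 0 * q 1 - p 1 * q 0) ^ 4 ≠ 0 := pow_ne_zero _ hδ
    apply mul_left_cancel₀ hδ4
    rw [e1]
    have e2 : (w * q 1 ^ 2 - β * q 1 * p 1 + γ * p 1 ^ 2) / (p 0 * q 1 - p 1 * q 0) ^ 2 * x 0 ^ 2 +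
        (-2 * w * q 0 * q 1 + β * (q 1 * p 0 + q 0 * p 1) - 2 * γ * p 0 * p 1) /
          (p 0 * q 1 - p 1 * q 0) ^ 2 * x 0 * x 1 +
        (w * q 0 ^ 2 - β * q 0 * p 0 + γ * p 0 ^ 2) / (p 0 * q 1 - p 1 * q 0) ^ 2 * x 1 ^ 2 =
        (w * (x 0 * q 1 - x 1 * q 0) ^ 2 + β * (x 0 * q 1 - x 1 * q 0) * (p 0 * x 1 - p 1 * x 0) +
          γ * (p 0 * x 1 - p 1 * x 0) ^ 2) / (p 0 * q 1 - p 1 * q 0) ^ 2 := by
      ring
    rw [e2]
    generalize p 0 * q 1 - p 1 * q 0 = δ at *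
    have e3 : x 0 * p 1 - x 1 * p 0 = -(p 0 * x 1 - p 1 * x 0) := by ring
    rw [e3]
    generalize x 0 * q 1 - x 1 * q 0 = s
    generalize p 0 * x 1 - p 1 * x 0 = t
    field_simp
    ring
  have hκ : κ / (p 0 * q 1 - p 1 * q 0) ^ 4 ≠ 0 := by
    intro h5
    apply hd
    apply sq_dsc (a := (w * q 1 ^ 2 - β * q 1 * p 1 + γ * p 1 ^ 2) / (p 0 * q 1 - p 1 * q 0) ^ 2)
      (b := (-2 * w * q 0 * q 1 + β * (q 1 * p 0 + q 0 * p 1) - 2 * γ * p 0 * p 1) /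
          (p 0 * q 1 - p 1 * q 0) ^ 2)
      (d := (w * q 0 ^ 2 - β * q 0 * p 0 + γ * p 0 ^ 2) / (p 0 * q 1 - p 1 * q 0) ^ 2)
    intro x
    rw [hid x, h5]
    ring
  have hδ2 : (p 0 * q 1 - p 1 * q 0) ^ 2 ≠ 0 := pow_ne_zero _ hδ
  refine two_pts h hr hp hp hκ hw (neg_ne_zero.mpr hw) hid ?_ ?_
  · trans w * (p 0 * q 1 - p 1 * q 0) ^ 2 / (p 0 * q 1 - p 1 * q 0) ^ 2
    · ring
    · rw [mul_div_cancel_right₀ _ hδ2]
  · trans w * (p 0 * q 1 - p 1 * q 0) ^ 2 / (p 0 * q 1 - p 1 * q 0) ^ 2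
    · ring
    · rw [mul_div_cancel_right₀ _ hδ2, neg_neg]

private lemma exists_basis {p : Fin 2 → k} (hp : p ≠ 0) :
    ∃ q : Fin 2 → k, p 0 * q 1 - p 1 * q 0 ≠ 0 := by
  by_cases h0 : p 0 = 0
  · have h1 : p 1 ≠ 0 := by
      intro h1
      apply hp
      funext i
      fin_cases i
      · exact h0
      · exact h1
    refine ⟨![1, 0], ?_⟩
    simp only [Matrix.cons_val_zero, Matrix.cons_val_one, mul_zero, zero_sub, mul_one]
    exact neg_ne_zero.mpr h1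
  · refine ⟨![0, 1], ?_⟩
    simp only [Matrix.cons_val_zero, Matrix.cons_val_one, mul_zero, sub_zero, mul_one]
    exact h0

/-- The value at a point at which the covariant of degree six vanishes. -/
private lemma val_zero {ψ : Q.surface.Pt → k} (h : Kills Q.surface ψ)
    (ho : ∀ p, ψ (neg p) = -ψ p) {r p : Fin 2 → k} (hr : r ≠ 0) (hp : p ≠ 0) {w : k}
    (hw : w ≠ 0) (hd : dsc (cf Q r) ≠ 0) (h0 : w ^ 2 = qu (cf Q r) p)
    (h6 : g6 (cf Q r) p = 0) : ψ (qpt Q r p w) = 0 := by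
  obtain ⟨q, hδ⟩ := exists_basis hp
  have h2w : 2 * w ≠ 0 := mul_ne_zero two_ne_zero hw
  have e6 := g6_basis (cf Q r) p q
  rw [h6, zero_mul, ← h0] at e6
  have hb : d1 (cf Q r) p q = 2 * w * (d1 (cf Q r) p q / (2 * w)) := by
    field_simp
  have h2 : d2 (cf Q r) p q = (d1 (cf Q r) p q / (2 * w)) ^ 2 +
      2 * w * ((d2 (cf Q r) p q - (d1 (cf Q r) p q / (2 * w)) ^ 2) / (2 * w)) := by
    field_simp
    ring
  have h3 : d1 (cf Q r) q p = 2 * (d1 (cf Q r) p q / (2 * w)) *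
      ((d2 (cf Q r) p q - (d1 (cf Q r) p q / (2 * w)) ^ 2) / (2 * w)) := by
    have h8 : (8 : k) * w ^ 4 ≠ 0 := mul_ne_zero (by norm_num) (pow_ne_zero _ hw)
    apply mul_left_cancel₀ h8
    field_simp
    linear_combination -e6
  have h5 := pts_b h hr hp hδ hw hd h0.symm hb h2 h3
    (κ := qu (cf Q r) q - ((d2 (cf Q r) p q - (d1 (cf Q r) p q / (2 * w)) ^ 2) / (2 * w)) ^ 2)
    (by ring)
  rw [← neg_qpt hr hp h0, ho] at h5
  have h7 : 2 * ψ (qpt Q r p w) = 0 := by linear_combination h5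
  exact (mul_eq_zero.mp h7).resolve_left two_ne_zero

/-- The core: points with the same `u`. -/
private lemma core {ψ : Q.surface.Pt → k} (h : Kills Q.surface ψ)
    (ho : ∀ p, ψ (neg p) = -ψ p) {r p q : Fin 2 → k} (hr : r ≠ 0) (hp : p ≠ 0) (hq : q ≠ 0)
    {w w' m : k} (hm : m ≠ 0) (hd : dsc (cf Q r) ≠ 0) (h0 : w ^ 2 = qu (cf Q r) p)
    (h0' : w' ^ 2 = qu (cf Q r) q)
    (t0 : 6 * g4 (cf Q r) q * w' = m * (6 * g4 (cf Q r) p * w))
    (t1 : 27 * g6 (cf Q r) q = m * (27 * g6 (cf Q r) p))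
    (t2 : 8 * w' ^ 3 = m * (8 * w ^ 3)) : ψ (qpt Q r p w) = ψ (qpt Q r q w') := by
  have two_zero : ∀ x : k, x = -x → x = 0 := by
    intro x hx
    have : 2 * x = 0 := by linear_combination hx
    exact (mul_eq_zero.mp this).resolve_left two_ne_zero
  have t2' : w' ^ 3 = m * w ^ 3 := by
    have h8 : (8 : k) ≠ 0 := by norm_num
    apply mul_left_cancel₀ h8
    linear_combination t2
  have t1' : g6 (cf Q r) q = m * g6 (cf Q r) p := by
    have h8 : (27 : k) ≠ 0 := by norm_num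
    apply mul_left_cancel₀ h8
    linear_combination t1
  have t0' : g4 (cf Q r) q * w' = m * (g4 (cf Q r) p * w) := by
    have h8 : (6 : k) ≠ 0 := by norm_num
    apply mul_left_cancel₀ h8
    linear_combination t0
  by_cases hw : w = 0
  · have hw' : w' = 0 := by
      rw [hw] at t2'
      have : w' ^ 3 = 0 := by rw [t2']; ring
      exact (pow_eq_zero_iff (by norm_num)).mp this
    have z1 : ψ (qpt Q r p w) = 0 := by
      apply two_zero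
      rw [← ho, neg_qpt hr hp h0, hw, neg_zero]
    have z2 : ψ (qpt Q r q w') = 0 := by
      apply two_zero
      rw [← ho, neg_qpt hr hq h0', hw', neg_zero]
    rw [z1, z2]
  have hw' : w' ≠ 0 := by
    intro h5
    rw [h5] at t2'
    have h6 : m * w ^ 3 = 0 := by rw [← t2']; ring
    exact mul_ne_zero hm (pow_ne_zero _ hw) h6
  -- the two equations
  have e1 : g4 (cf Q r) p * w' ^ 2 = g4 (cf Q r) q * w ^ 2 := by
    apply mul_left_cancel₀ (mul_ne_zero hw hw')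
    linear_combination g4 (cf Q r) p * w * t2' - w ^ 3 * t0'
  have e2 : g6 (cf Q r) p * w' ^ 3 = g6 (cf Q r) q * w ^ 3 := by
    linear_combination g6 (cf Q r) p * t2' - w ^ 3 * t1'
  by_cases hδ : p 0 * q 1 - p 1 * q 0 = 0
  · -- proportional coordinates
    obtain ⟨l, hl, hql⟩ : ∃ l : k, l ≠ 0 ∧ q = fun i => l * p i := by
      obtain ⟨j, hj⟩ := Function.ne_iff.mp hp
      have hj : p j ≠ 0 := hj
      have hall : ∀ i, q i * p j = q j * p i := by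
        intro i
        fin_cases i <;> fin_cases j
        · rfl
        · change q 0 * p 1 = q 1 * p 0
          linear_combination -hδ
        · change q 1 * p 0 = q 0 * p 1
          linear_combination hδ
        · rfl
      have hq' : q = fun i => q j / p j * p i := by
        funext i
        have := hall i
        field_simp
        linear_combination this
      refine ⟨q j / p j, ?_, hq'⟩
      intro h5
      apply hq
      rw [hq', h5]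
      funext i
      simp
    have h7 : (w' - l ^ 2 * w) * (w' + l ^ 2 * w) = 0 := by
      have h8 : qu (cf Q r) q = l ^ 4 * qu (cf Q r) p := by rw [hql, qu_smul]
      rw [h8, ← h0] at h0'
      linear_combination h0'
    rcases mul_eq_zero.mp h7 with h8 | h8
    · have h9 : w' = l ^ 2 * w := sub_eq_zero.mp h8
      rw [h9, hql, qpt_smul hr hp hl h0]
    · have h9 : w' = l ^ 2 * (-w) := by linear_combination h8
      have h10 : g6 (cf Q r) p = 0 := by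
        have h11 : g6 (cf Q r) q = l ^ 6 * g6 (cf Q r) p := by rw [hql, g6_smul]
        have h12 : 2 * (l ^ 6 * w ^ 3) * g6 (cf Q r) p = 0 := by
          rw [h11, h9] at e2
          linear_combination -e2
        refine (mul_eq_zero.mp h12).resolve_left ?_
        exact mul_ne_zero two_ne_zero (mul_ne_zero (pow_ne_zero _ hl) (pow_ne_zero _ hw))
      have h11 := val_zero h ho hr hp hw hd h0 h10
      have h12 : (-w) ^ 2 = qu (cf Q r) p := by rw [neg_sq]; exact h0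
      rw [h11, h9, hql, qpt_smul hr hp hl h12, ← neg_qpt hr hp h0, ho, h11, neg_zero]
  · -- independent coordinates
    have f4 := g4_basis (cf Q r) p q
    have f4' := g4_basis (cf Q r) q p
    have f6 := g6_basis (cf Q r) p q
    have f6' := g6_basis (cf Q r) q p
    rw [d2_symm, ← h0'] at f4' f6'
    rw [← h0] at f4 f6
    have h7 : (d1 (cf Q r) p q * w' + d1 (cf Q r) q p * w) *
        (d1 (cf Q r) p q * w' - d1 (cf Q r) q p * w) = 0 := by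
      have h3 : (3 : k) ≠ 0 := by norm_num
      apply mul_left_cancel₀ h3
      linear_combination (-w' ^ 2) * f4 + w ^ 2 * f4' + (p 0 * q 1 - p 1 * q 0) ^ 2 * e1
    -- the case A1, for one sign of `w'`
    have hA : ∀ v : k, v ≠ 0 → v ^ 2 = qu (cf Q r) q →
        d1 (cf Q r) p q * v + d1 (cf Q r) q p * w = 0 →
        ψ (qpt Q r p w) = ψ (qpt Q r q v) := by
      intro v hv hv2 hv1
      refine pts_a h hr hp hq hδ (β := d1 (cf Q r) p q / (2 * w))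
        (κ := d2 (cf Q r) p q - (d1 (cf Q r) p q / (2 * w)) ^ 2 + 2 * w * v) hw hv hd h0.symm
        ?_ ?_ ?_ hv2.symm
      · field_simp
      · ring
      · field_simp
        linear_combination hv1
    rcases mul_eq_zero.mp h7 with h8 | h8
    · exact hA w' hw' h0' h8
    · have h9 := hA (-w') (neg_ne_zero.mpr hw') (by rw [neg_sq]; exact h0')
        (by linear_combination -h8)
      rw [← neg_qpt hr hq h0', ho] at h9
      have h10 : g6 (cf Q r) p = 0 := by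
        have hδ3 : (p 0 * q 1 - p 1 * q 0) ^ 3 ≠ 0 := pow_ne_zero _ hδ
        have h11 : 2 * w' ^ 3 * (g6 (cf Q r) p * (p 0 * q 1 - p 1 * q 0) ^ 3) = 0 := by
          linear_combination (p 0 * q 1 - p 1 * q 0) ^ 3 * e2 - w ^ 3 * f6' + w' ^ 3 * f6 +
            (d1 (cf Q r) p q ^ 2 * w' ^ 2 + d1 (cf Q r) p q * d1 (cf Q r) q p * w * w' +
              d1 (cf Q r) q p ^ 2 * w ^ 2 - 8 * w ^ 3 * w' ^ 3 -
              4 * w ^ 2 * w' ^ 2 * d2 (cf Q r) p q) * h8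
        have h12 := (mul_eq_zero.mp h11).resolve_left
          (mul_ne_zero two_ne_zero (pow_ne_zero _ hw'))
        exact (mul_eq_zero.mp h12).resolve_right hδ3
      have h11 := val_zero h ho hr hp hw hd h0 h10
      rw [h11] at h9 ⊢
      linear_combination -h9

theorem over_unique {ψ : Q.surface.Pt → k} (h : Kills Q.surface ψ)
    (ho : ∀ p, ψ (neg p) = -ψ p) {P P' : QPt Q k} {j : WPt Q.wei k} (h1 : Over P j)
    (h2 : Over P' j) (hd : DW j) : ψ P = ψ P' := by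
  obtain ⟨a, ha, rfl, rfl⟩ := h1
  obtain ⟨a', ha', rfl, hj⟩ := h2
  rw [dw_mk] at hd
  have hd' : dsc (cf Q a.u) ≠ 0 := hd
  obtain ⟨l, c, hl, hc, e1, e2⟩ := Helper51.EW.mk_eq_iff.mp hj
  have e1' : ∀ i, a'.u i = l * a.u i := e1
  have e2' : ∀ i, tw a' i = l ^ Helper51.EW.wt Q.N i * c * tw a i := e2
  have hL : l ^ (3 * Q.N + 3 * Q.e) ≠ 0 := pow_ne_zero _ hl
  have e3 : ∀ i, tw a' i = c / l ^ (3 * Q.N + 3 * Q.e) * tw (scale a l 1 hl one_ne_zero) i := by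
    intro i
    rw [tw_scale, e2']
    field_simp
  have hu : a'.u = (scale a l 1 hl one_ne_zero).u := funext e1'
  rw [← same_scale a l 1 hl one_ne_zero]
  have hdb : dsc (cf Q (scale a l 1 hl one_ne_zero).u) ≠ 0 := by
    have := dsc_scale Q l hl a.u
    change dsc (cf Q (fun s => l * a.u s)) ≠ 0
    rw [this]
    exact mul_ne_zero (pow_ne_zero _ hl) hd'
  generalize scale a l 1 hl one_ne_zero = b at *
  have hb : QPt.mk b = qpt Q b.u b.x b.w := (qpt_eq b.u_ne b.x_ne b.eqn).symm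
  have ha'' : QPt.mk a' = qpt Q a'.u a'.x a'.w := (qpt_eq a'.u_ne a'.x_ne a'.eqn).symm
  have q1 := a'.eqn
  have s0 := e3 0
  have s1 := e3 1
  have s2 := e3 2
  change 6 * g4 (cf Q a'.u) a'.x * a'.w = _ * (6 * g4 (cf Q b.u) b.x * b.w) at s0
  change 27 * g6 (cf Q a'.u) a'.x = _ * (27 * g6 (cf Q b.u) b.x) at s1
  change 8 * a'.w ^ 3 = _ * (8 * b.w ^ 3) at s2
  rw [hb, ha'']
  rw [hu] at q1 s0 s1 ⊢
  exact core h ho b.u_ne b.x_ne a'.x_ne (div_ne_zero hc hL) hdb b.eqn q1 s0 s1 s2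

end Pool.Agent.Helper83.QF
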