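import Mathlib
import Pool.Agent.Helper9.NS
import Pool.Agent.Helper83.QF.Bc
import Pool.Agent.Helper83.QF.Sum
import Pool.Agent.Helper83.QF.Lft
import Pool.Agent.Helper83.QF.Ovv
import Pool.Agent.Helper83.QF.Uni
import Pool.Agent.Helper83.QF.Sng

/-!
# Block PHI: the function on the Jacobian fibration
Proof of `phi_eq`. Replace the coordinates of `P` one after the other by those of the chosen
points: `ψ (update p i x)` as a function of `x` satisfies the hypotheses of `over_unique`
(`induced_update`, `exists_const`, as in `EW.Odd.one`).
Proof of `phi_kills`. Let `K`, `c : Fin n → WPt Q.wei K`, `f ≠ 0` in `K`. If some `c i` is not `DW` then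
no value `eval (c i) v` is `DW` (adapted coordinates, `dw_mk`, the discriminant `0` has residue `0`),
so all values of `Phi` are `0`. Otherwise take `L`, `P` from `exists_lifts`. For a place `v` of `L`,
`Phi ψ (eval c (res v)) = ψ (fun i => eval (P i) v)`: `eval (c i) (res v) = eval (wmap (c i)) v` by
`wmap_eval`; if all `eval (P i) v` are `DQ` use `over_val` and `phi_eq`; if `eval (P i) v` is not `DQ`
for some `i` then `eval (c i) (res v)` is not `DW` (`base_val`), so `Phi = 0`, and `ψ = 0` by
`sing_zero` applied to the `i`-th variable. Now `Kills.gen` for `ψ`, `P` and `algebraMap K L f`, and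
`kills_res` with `g v = Phi ψ (eval c v)`.
(What has to be proved: `Kills X ψ` is the statement about `X.Rat`, see `Helper83/VF/Defs.lean`,
`Kill.lean`; it is enough to check it on the generators of `X.Rat`, cf. `Kills.comp`, `VC.gen_mem`
and the proof of `VC.map_rat`.)
-/

set_option linter.unusedSectionVars false

namespace Pool.Agent.Helper83.QF

open VC VF Function
open Pool.Agent.Helper51.EW (Wei WPt)

universe u

variable {k : Type u} [Field k] [IsAlgClosed k] [CharZero k] {Q : Qua k}

/-- The functions considered. -/
structure OddQ (Q : Qua k) (n : ℕ) (ψ : (Q.surface.pow n).Pt → k) : Prop where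
  kills : Kills (Q.surface.pow n) ψ
  odd : ∀ p i, ψ (update p i (neg (p i))) = -ψ p
  alt : ∀ i j, i ≠ j → ∀ p : (Q.surface.pow n).Pt, ψ (fun l => p (Equiv.swap i j l)) = -ψ p

variable {n : ℕ} {ψ : (Q.surface.pow n).Pt → k}

lemma OddQ.one (h : OddQ Q n ψ) (p : (Q.surface.pow n).Pt) (i : Fin n) :
    Kills Q.surface (fun x => ψ (update p i x)) ∧
      ∀ x, ψ (update p i (neg x)) = -ψ (update p i x) := by
  refine ⟨h.kills.comp (induced_update Q.surface p (fun K _ _ hK q => exists_const K hK q) i),
    fun x => ?_⟩
  have := h.odd (update p i x) i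
  rwa [update_self, update_idem] at this

open Classical in
/-- The function on the Jacobian fibration. -/
noncomputable def Phi (ψ : (Q.surface.pow n).Pt → k) (j : (Q.wei.surface.pow n).Pt) : k :=
  if h : ∀ i, DW (j i) then ψ (fun i => (exists_over (j i) (h i)).choose) else 0

theorem phi_eq (h : OddQ Q n ψ) {P : (Q.surface.pow n).Pt} {j : (Q.wei.surface.pow n).Pt}
    (h1 : ∀ i, Over (P i) (j i)) (h2 : ∀ i, DW (j i)) : Phi ψ j = ψ P := by
  classical
  unfold Phi
  rw [dif_pos h2]
  set P' : (Q.surface.pow n).Pt := fun i => (exists_over (j i) (h2 i)).choose with hP'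
  have h3 : ∀ i, Over (P' i) (j i) := fun i => (exists_over (j i) (h2 i)).choose_spec
  have key : ∀ s : Finset (Fin n), ψ (fun i => if i ∈ s then P i else P' i) = ψ P' := by
    intro s
    induction s using Finset.induction_on with
    | empty => simp
    | insert a s ha ih =>
      rw [← ih]
      have hone := h.one (fun i => if i ∈ s then P i else P' i) a
      have e1 : (fun i => if i ∈ insert a s then P i else P' i) =
          update (fun i => if i ∈ s then P i else P' i) a (P a) := by
        funext i
        by_cases hi : i = a
        · subst hi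
          rw [update_self, if_pos (Finset.mem_insert_self _ _)]
        · rw [update_of_ne hi]
          by_cases his : i ∈ s
          · rw [if_pos his, if_pos (Finset.mem_insert_of_mem his)]
          · rw [if_neg his, if_neg]
            intro h4
            rcases Finset.mem_insert.mp h4 with h5 | h5
            · exact hi h5
            · exact his h5
      have e2 : (fun i => if i ∈ s then P i else P' i) =
          update (fun i => if i ∈ s then P i else P' i) a (P' a) := by
        funext i
        by_cases hi : i = a
        · subst hi
          rw [update_self, if_neg ha]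
        · rw [update_of_ne hi]
      rw [e1]
      conv_rhs => rw [e2]
      exact over_unique hone.1 hone.2 (h1 a) (h3 a) (h2 a)
  have h5 := key Finset.univ
  simp only [Finset.mem_univ, if_true] at h5
  exact h5.symm

/-- Values of points over singular fibres. -/
theorem not_dw_eval {K : Type u} [Field K] [Algebra k K] (hK : IsFunctionField k K)
    (v : Place k K) {j : WPt Q.wei K} (h : ¬ DW j) : ¬ DW (Q.wei.surface.eval hK j v) := by
  obtain ⟨a, b, rfl, h2, h3, h4⟩ := Helper51.EW.exists_coords hK v j
  rw [h2, dw_mk]
  rw [dw_mk] at h
  have h0 : dsc (cf Q a.u) = 0 := by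
    by_contra h1
    exact h h1
  rw [not_not]
  have hr : ∀ i, IsRes v (cf Q a.u i) (cf Q b.u i) := isRes_cf h3
  have e : IsRes v (dsc (cf Q a.u)) (dsc (cf Q b.u)) := by
    have c4 : IsRes v (4 : K) (4 : k) := by
      have := isRes_const (v := v) (4 : k)
      rwa [map_ofNat] at this
    have c12 : IsRes v (12 : K) (12 : k) := by
      have := isRes_const (v := v) (12 : k)
      rwa [map_ofNat] at this
    have c3 : IsRes v (3 : K) (3 : k) := by
      have := isRes_const (v := v) (3 : k)
      rwa [map_ofNat] at this
    have c72 : IsRes v (72 : K) (72 : k) := by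
      have := isRes_const (v := v) (72 : k)
      rwa [map_ofNat] at this
    have c9 : IsRes v (9 : K) (9 : k) := by
      have := isRes_const (v := v) (9 : k)
      rwa [map_ofNat] at this
    have c27 : IsRes v (27 : K) (27 : k) := by
      have := isRes_const (v := v) (27 : k)
      rwa [map_ofNat] at this
    have c2 : IsRes v (2 : K) (2 : k) := by
      have := isRes_const (v := v) (2 : k)
      rwa [map_ofNat] at this
    have hI : IsRes v (bI (cf Q a.u)) (bI (cf Q b.u)) :=
      (((c12.mul (hr 0)).mul (hr 4)).sub ((c3.mul (hr 1)).mul (hr 3))).add ((hr 2).pow 2)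
    have hJ : IsRes v (bJ (cf Q a.u)) (bJ (cf Q b.u)) :=
      ((((((c72.mul (hr 0)).mul (hr 2)).mul (hr 4)).add (((c9.mul (hr 1)).mul (hr 2)).mul (hr 3))).sub
        ((c27.mul (hr 0)).mul ((hr 3).pow 2))).sub ((c27.mul (hr 4)).mul ((hr 1).pow 2))).sub
        (c2.mul ((hr 2).pow 3))
    exact (c4.mul (hI.pow 3)).sub (hJ.pow 2)
  rw [h0] at e
  exact (e.unique isRes_zero)

theorem phi_kills (h : OddQ Q n ψ) : Kills (Q.wei.surface.pow n) (Phi ψ) := by
  classical
  intro z hz
  have hcl : (Q.wei.surface.pow n).Rat ≤
      (LinearMap.ker (Finsupp.linearCombination ℤ (Phi ψ))).toAddSubgroup := by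
    unfold Variety.Rat
    rw [AddSubgroup.closure_le]
    rintro z ⟨K, _, _, hK, c, f, hf, rfl⟩
    rw [SetLike.mem_coe, Submodule.mem_toAddSubgroup, LinearMap.mem_ker]
    rw [finsum_eq_sum_of_support_subset (s := (finite_support_ord hK hf).toFinset)]
    · rw [map_sum]
      have e1 : ∀ v ∈ (finite_support_ord hK hf).toFinset,
          Finsupp.linearCombination ℤ (Phi ψ)
            (Finsupp.single ((Q.wei.surface.pow n).eval hK c v) (ord v.ring f)) =
          (ord v.ring f : k) * Phi ψ (fun i => Q.wei.surface.eval hK (c i) v) := by
        intro v _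
        rw [Finsupp.linearCombination_single, zsmul_eq_mul]
      rw [Finset.sum_congr rfl e1]
      by_cases hdw : ∀ i, DW (c i)
      · obtain ⟨L, _, _, _, _, hL, P, hP⟩ := exists_lifts hK c hdw
        have h1 : algebraMap K L f ≠ 0 := by
          rw [Ne, _root_.map_eq_zero]
          exact hf
        refine kills_res hK hL (fun v => Phi ψ (fun i => Q.wei.surface.eval hK (c i) v)) hf h1 ?_
        have hval : ∀ v : Place k L,
            Phi ψ (fun i => Q.wei.surface.eval hK (c i) (VQ.res hK hL v)) =
              ψ ((Q.surface.pow n).eval hL P v) := by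
          intro v
          have e2 : (fun i => Q.wei.surface.eval hK (c i) (VQ.res hK hL v)) =
              fun i => Q.wei.surface.eval hL (wmap (IsScalarTower.toAlgHom k K L) (c i)) v := by
            funext i
            exact (wmap_eval hK hL (c i) v).symm
          rw [e2]
          by_cases hd : ∀ i, DQ (Q.surface.eval hL (P i) v)
          · exact phi_eq h (fun i => over_val hL v (hP i) (hd i))
              (fun i => (base_val hL v (hP i)).2 (hd i))
          · rw [not_forall] at hd
            obtain ⟨i, hi⟩ := hd
            have h2 : ¬ ∀ i, DW (Q.wei.surface.eval hL (wmap (IsScalarTower.toAlgHom k K L) (c i)) v) :=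
              fun h3 => hi ((base_val hL v (hP i)).1 (h3 i))
            unfold Phi
            rw [dif_neg h2]
            have hone := h.one ((Q.surface.pow n).eval hL P v) i
            have h4 := sing_zero hone.1 hone.2 hi
            have h5 : update ((Q.surface.pow n).eval hL P v) i (Q.surface.eval hL (P i) v) =
                (Q.surface.pow n).eval hL P v := update_eq_self i _
            rw [h5] at h4
            exact h4.symm
        simp only [hval]
        exact h.kills.gen hL P h1
      · apply Finset.sum_eq_zero
        intro v _
        rw [not_forall] at hdw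
        obtain ⟨i, hi⟩ := hdw
        have h2 : ¬ ∀ i, DW (Q.wei.surface.eval hK (c i) v) := fun h3 => not_dw_eval hK v hi (h3 i)
        unfold Phi
        rw [dif_neg h2, mul_zero]
    · intro v hv
      rw [Set.Finite.coe_toFinset, Set.mem_ofPred_eq]
      intro h0
      apply hv
      beta_reduce
      rw [h0, Finsupp.single_zero]
  exact hcl hz

end Pool.Agent.Helper83.QF
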